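import Mathlib
import Pool.Agent.H19.Post

/-!
Computable maps of Cantor space as monotone string functions; binary valuations of points.
-/

set_option autoImplicit false

namespace Pool.Agent.H51.TE

open Encodable Pool.Agent.H19 Filter

/-- The monotone string function `F` induces the total map `f` of Cantor space. -/
structure CFun (F : List Bool → List Bool) (f : (ℕ → Bool) → ℕ → Bool) : Prop where
  mono : ∀ σ τ, σ <+: τ → F σ <+: F τ
  maps : ∀ X, Maps F X (f X)

theorem getElem?_of_isPrefix {σ τ : List Bool} (h : σ <+: τ) {n : ℕ} {b : Bool}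
    (hn : σ[n]? = some b) : τ[n]? = some b := by
  obtain ⟨v, rfl⟩ := h
  rw [List.getElem?_append_left, hn]
  rw [List.getElem?_eq_some_iff] at hn
  exact hn.1

namespace CFun

variable {F G : List Bool → List Bool} {f g : (ℕ → Bool) → ℕ → Bool}

theorem ev (h : CFun F f) (X : ℕ → Bool) (n : ℕ) :
    ∀ᶠ s in atTop, (F (pre X s))[n]? = some (f X n) := by
  obtain ⟨s, hs⟩ := h.maps X n
  exact eventually_atTop.2 ⟨s, fun t ht => getElem?_of_isPrefix (h.mono _ _ (pre_mono X ht)) hs⟩

theorem len_ev (h : CFun F f) (X : ℕ → Bool) (n : ℕ) :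
    ∀ᶠ s in atTop, n ≤ (F (pre X s)).length := by
  rcases n with _ | n
  · exact Eventually.of_forall fun _ => Nat.zero_le _
  · refine (h.ev X n).mono fun s hs => ?_
    rw [List.getElem?_eq_some_iff] at hs
    exact hs.1

theorem eq_pre (h : CFun F f) (X : ℕ → Bool) (s : ℕ) :
    F (pre X s) = pre (f X) (F (pre X s)).length := by
  have := take_of_maps h.mono (h.maps X) (L := s) (n := (F (pre X s)).length) le_rfl
  rwa [List.take_length] at this

theorem take_eq (h : CFun F f) (X : ℕ → Bool) {s n : ℕ} (hn : n ≤ (F (pre X s)).length) :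
    (F (pre X s)).take n = pre (f X) n :=
  take_of_maps h.mono (h.maps X) hn

theorem ident : CFun (fun σ => σ) (fun X => X) :=
  ⟨fun _ _ h => h, fun X n => ⟨n + 1, pre_getElem? X (Nat.lt_succ_self n)⟩⟩

theorem comp (hG : CFun G g) (hF : CFun F f) :
    CFun (fun σ => G (F σ)) (fun X => g (f X)) := by
  refine ⟨fun σ τ hστ => hG.mono _ _ (hF.mono _ _ hστ), fun X n => ?_⟩
  obtain ⟨s', hs'⟩ := hG.maps (f X) n
  obtain ⟨s, hs⟩ := (hF.len_ev X s').exists
  refine ⟨s, getElem?_of_isPrefix (hG.mono _ _ ?_) hs'⟩
  rw [hF.eq_pre X s]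
  exact pre_mono (f X) hs

theorem iterate (hF : CFun F f) (l : ℕ) : CFun (F^[l]) (f^[l]) := by
  induction l with
  | zero => exact ident
  | succ l ih =>
    have h1 := comp hF ih
    have e1 : F^[l + 1] = fun σ => F (F^[l] σ) := by
      funext σ; exact Function.iterate_succ_apply' F l σ
    have e2 : f^[l + 1] = fun X => f (f^[l] X) := by
      funext X; exact Function.iterate_succ_apply' f l X
    rw [e1, e2]; exact h1

theorem unique (hF : CFun F f) {X Y : ℕ → Bool} (h : Maps F X Y) : Y = f X :=
  maps_unique hF.mono h (hF.maps X)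

end CFun

/-! ### Words of branches -/

/-- Application of a word of string functions. -/
def gwS (g : ℕ → List Bool → List Bool) (τ : List ℕ) (σ : List Bool) : List Bool :=
  τ.foldl (fun z j => g j z) σ

/-- Application of a word of maps. -/
def gwR (γ : ℕ → (ℕ → Bool) → ℕ → Bool) (τ : List ℕ) (X : ℕ → Bool) : ℕ → Bool :=
  τ.foldl (fun Z j => γ j Z) X

theorem gw_cfun {g : ℕ → List Bool → List Bool} {γ : ℕ → (ℕ → Bool) → ℕ → Bool}
    (h : ∀ j, CFun (g j) (γ j)) (τ : List ℕ) : CFun (gwS g τ) (gwR γ τ) := by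
  induction τ with
  | nil => exact CFun.ident
  | cons j τ ih =>
    show CFun (fun σ => gwS g τ (g j σ)) (fun X => gwR γ τ (γ j X))
    exact CFun.comp ih (h j)

theorem gwR_append (γ : ℕ → (ℕ → Bool) → ℕ → Bool) (τ : List ℕ) (j : ℕ) (X : ℕ → Bool) :
    gwR γ (τ ++ [j]) X = γ j (gwR γ τ X) := by
  simp [gwR]

theorem iterate_gwR {f : (ℕ → Bool) → ℕ → Bool} {γ : ℕ → (ℕ → Bool) → ℕ → Bool}
    (h : ∀ j Y, f (γ j Y) = Y) (τ : List ℕ) (X : ℕ → Bool) :
    f^[τ.length] (gwR γ τ X) = X := by
  induction τ generalizing X with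
  | nil => rfl
  | cons j τ ih =>
    rw [List.length_cons, Function.iterate_succ_apply']
    change f (f^[τ.length] (gwR γ τ (γ j X))) = X
    rw [ih, h]

theorem exists_gwR {f : (ℕ → Bool) → ℕ → Bool} {γ : ℕ → (ℕ → Bool) → ℕ → Bool} {K : ℕ}
    (h : ∀ X, ∃ j < K, γ j (f X) = X) (n : ℕ) (X : ℕ → Bool) :
    ∃ τ : List ℕ, τ.length = n ∧ (∀ j ∈ τ, j < K) ∧ gwR γ τ (f^[n] X) = X := by
  induction n generalizing X with
  | zero => exact ⟨[], rfl, by simp, rfl⟩
  | succ n ih =>
    obtain ⟨τ, h1, h2, h3⟩ := ih (f X)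
    obtain ⟨j, hj, hγ⟩ := h X
    refine ⟨τ ++ [j], by simp [h1], ?_, ?_⟩
    · intro i hi
      rw [List.mem_append, List.mem_singleton] at hi
      rcases hi with hi | rfl
      · exact h2 i hi
      · exact hj
    · rw [gwR_append, Function.iterate_succ_apply, h3, hγ]

/-- All words of length `n` over `{0, …, K-1}`. -/
def wordsEq (K : ℕ) : ℕ → List (List ℕ)
  | 0 => [[]]
  | n + 1 => (wordsEq K n).flatMap fun τ => (List.range K).map fun j => τ ++ [j]

theorem mem_wordsEq {K n : ℕ} {τ : List ℕ} :
    τ ∈ wordsEq K n ↔ τ.length = n ∧ ∀ j ∈ τ, j < K := by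
  induction n generalizing τ with
  | zero =>
    simp only [wordsEq, List.mem_singleton, List.length_eq_zero_iff]
    constructor
    · rintro rfl; exact ⟨rfl, by simp⟩
    · exact fun h => h.1
  | succ n ih =>
    simp only [wordsEq, List.mem_flatMap, List.mem_map, List.mem_range]
    constructor
    · rintro ⟨τ', h1, j, hj, rfl⟩
      obtain ⟨h2, h3⟩ := ih.1 h1
      refine ⟨by simp [h2], fun i hi => ?_⟩
      rw [List.mem_append, List.mem_singleton] at hi
      rcases hi with hi | rfl
      · exact h3 i hi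
      · exact hj
    · rintro ⟨h1, h2⟩
      have hne : τ ≠ [] := by rintro rfl; simp at h1
      have hd := List.dropLast_append_getLast hne
      refine ⟨τ.dropLast, ih.2 ⟨by simp [h1], fun j hj => h2 j ?_⟩, τ.getLast hne,
        h2 _ (List.getLast_mem hne), hd⟩
      exact List.dropLast_subset τ hj

/-- All words of length at most `n` over `{0, …, K-1}`. -/
def words (K n : ℕ) : List (List ℕ) := (List.range (n + 1)).flatMap (wordsEq K)

theorem mem_words {K n : ℕ} {τ : List ℕ} :
    τ ∈ words K n ↔ τ.length ≤ n ∧ ∀ j ∈ τ, j < K := by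
  simp only [words, List.mem_flatMap, List.mem_range, mem_wordsEq]
  constructor
  · rintro ⟨i, hi, rfl, h⟩; exact ⟨Nat.lt_succ_iff.1 hi, h⟩
  · rintro ⟨h1, h2⟩; exact ⟨_, Nat.lt_succ_iff.2 h1, rfl, h2⟩

theorem comp_wordsEq (K : ℕ) : Computable (wordsEq K) := by
  have h1 : Computable₂ (fun (_ : ℕ) (p : ℕ × List (List ℕ)) =>
      p.2.flatMap (fun τ => (List.range K).map fun j => τ ++ [j])) := by
    refine comp_list_flatMap (f := fun x : ℕ × (ℕ × List (List ℕ)) => x.2.2)
      (g := fun _ τ => (List.range K).map fun j => τ ++ [j]) (Computable.snd.comp Computable.snd) ?_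
    refine comp_list_map (f := fun _ : (ℕ × ℕ × List (List ℕ)) × List ℕ => List.range K)
      (g := fun x j => x.2 ++ [j]) (Computable.const _) ?_
    exact Computable.list_append.comp (Computable.snd.comp Computable.fst)
      (Computable.list_cons.comp Computable.snd (Computable.const []))
  refine (Computable.nat_rec Computable.id (Computable.const ([[]] : List (List ℕ))) h1).of_eq
    fun n => ?_
  induction n with
  | zero => rfl
  | succ n ih =>
    simp only [id_eq] at ih ⊢
    rw [ih]; rfl

theorem comp_words (K : ℕ) : Computable (words K) :=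
  comp_list_flatMap (f := fun n : ℕ => List.range (n + 1)) (g := fun _ i => wordsEq K i)
    (comp_range Computable.succ) ((comp_wordsEq K).comp Computable.snd)

/-! ### Valuations -/

/-- The number with given binary digits. -/
def bv (σ : List Bool) : ℕ := σ.foldl (fun a b => 2 * a + cond b 1 0) 0

theorem bv_append (σ : List Bool) (b : Bool) : bv (σ ++ [b]) = 2 * bv σ + cond b 1 0 := by
  simp [bv]

/-- The valuations on Cantor space. -/
def vv (n : ℕ) (X : ℕ → Bool) : ℕ := bv (pre X n)

theorem vv_succ (n : ℕ) (X : ℕ → Bool) : vv (n + 1) X = 2 * vv n X + cond (X n) 1 0 := by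
  rw [vv, vv, ← bv_append]
  congr 1
  simp [pre, List.range_succ]

theorem vv_lt (n : ℕ) (X : ℕ → Bool) : vv n X < 2 ^ n := by
  induction n with
  | zero => simp [vv, pre, bv]
  | succ n ih =>
    rw [vv_succ, pow_succ]
    cases X n <;> simp only [cond_true, cond_false] <;> omega

theorem vv_div (n : ℕ) (X : ℕ → Bool) : vv n X = vv (n + 1) X / 2 := by
  rw [vv_succ]
  cases X n <;> simp only [cond_true, cond_false] <;> omega

theorem vv_eq_iff {n : ℕ} {X Y : ℕ → Bool} : vv n X = vv n Y ↔ pre X n = pre Y n := by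
  constructor
  · induction n with
    | zero => intro _; simp [pre]
    | succ n ih =>
      intro h
      rw [vv_succ, vv_succ] at h
      have h1 : vv n X = vv n Y := by
        revert h
        cases X n <;> cases Y n <;> simp only [cond_true, cond_false] <;> omega
      have h2 : X n = Y n := by
        rw [h1] at h
        revert h
        cases X n <;> cases Y n <;> simp
      have h3 := ih h1
      simp only [pre] at h3 ⊢
      rw [List.range_succ, List.map_append, List.map_append, h3]
      simp [h2]
  · intro h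
    rw [vv, vv, h]

theorem vv_sep (X Y : ℕ → Bool) (h : ∀ n, vv n X = vv n Y) : X = Y := by
  funext n
  have h1 := vv_eq_iff.1 (h (n + 1))
  rw [← pre_getD X (Nat.lt_succ_self n) false, h1, pre_getD Y (Nat.lt_succ_self n)]

theorem comp_bv : Computable bv := by
  have h1 : Computable₂ (fun (_ : List Bool) (p : ℕ × Bool) => 2 * p.1 + cond p.2 1 0) := by
    refine Primrec.nat_add.to_comp.comp (Primrec.nat_mul.to_comp.comp (Computable.const 2)
      (Computable.fst.comp Computable.snd)) ?_
    exact Computable.cond (Computable.snd.comp Computable.snd) (Computable.const 1)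
      (Computable.const 0)
  exact comp_list_foldl (f := fun σ : List Bool => σ) (g := fun _ => (0 : ℕ)) Computable.id
    (Computable.const 0) h1

theorem comp_iterate {F : List Bool → List Bool} (hF : Computable F) :
    Computable (fun p : ℕ × List Bool => F^[p.1] p.2) := by
  have h1 : Computable₂ (fun (_ : ℕ × List Bool) (p : ℕ × List Bool) => F p.2) :=
    hF.comp (Computable.snd.comp Computable.snd)
  refine (Computable.nat_rec Computable.fst Computable.snd h1).of_eq fun p => ?_
  obtain ⟨n, σ⟩ := p
  induction n with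
  | zero => rfl
  | succ n ih =>
    simp only at ih ⊢
    rw [ih, Function.iterate_succ_apply']

end Pool.Agent.H51.TE
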