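import Mathlib

/-!
Vanishing marker sets for a map `f`, given by a system `v` of finite valuations: cut sets which are
reached in bounded time by every point, and which contain a non-periodic point only finitely often.
-/

set_option autoImplicit false

namespace Pool.Agent.H51.TE

/-- Parameters of the marker construction. -/
structure Par {α : Type} (f : α → α) (v : ℕ → α → ℕ) (m G : ℕ → ℕ) : Prop where
  v_lt : ∀ n x, v n x < 2 ^ n
  v_div : ∀ n x, v n x = v (n + 1) x / 2
  v_sep : ∀ x y, (∀ n, v n x = v n y) → x = y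
  m0 : m 0 = 0
  G0 : G 0 = 0
  m_lt : ∀ e, m e < m (e + 1)
  G_le : ∀ e, 2 ^ (m e) * G e + 1 ≤ G (e + 1)
  mod : ∀ e x y, v (m (e + 1)) x = v (m (e + 1)) y →
    ∀ l ≤ 2 ^ (m e) * G e + 1 + G e, v (m e) (f^[l] x) = v (m e) (f^[l] y)

section

variable {α : Type} (f : α → α) (v : ℕ → α → ℕ) (m G : ℕ → ℕ)

/-- The bound for the time in which `U e` is reached. -/
def BB (e : ℕ) : ℕ := 2 ^ (m e) * G e

/-- The points whose value is minimal in a window of the forward orbit. -/
def UU (e : ℕ) (x : α) : Prop := ∀ i ≤ G e, v (m e) x ≤ v (m e) (f^[i] x)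

/-- `l` is the first positive time at which `x` reaches `U e`. -/
def IsR (e : ℕ) (x : α) (l : ℕ) : Prop :=
  0 < l ∧ UU f v m G e (f^[l] x) ∧ ∀ i, 0 < i → i < l → ¬ UU f v m G e (f^[i] x)

/-- The cut set. -/
def Cut (e : ℕ) (x : α) : Prop :=
  (UU f v m G e x ∧ ¬ UU f v m G (e + 1) x) ∨
  (UU f v m G e x ∧ UU f v m G e (f x) ∧ v (m (e + 1)) (f x) = v (m (e + 1)) x) ∨
  (¬ UU f v m G e x ∧ ∃ j d a, IsR f v m G e x j ∧ IsR f v m G e (f^[j] x) d ∧ j < d ∧
    v (m e) x = v (m e) (f^[d] x) ∧ BB m G a + 1 < d ∧ d ≤ BB m G (a + 1) + 1 ∧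
    UU f v m G a x ∧ IsR f v m G a (f^[j] x) (d - j))

/-- The bound for the time in which the cut set is reached. -/
def PP (e : ℕ) : ℕ := BB m G e + (2 ^ (m (e + 1)) + 1) * (BB m G e + 1)

end

section

variable {α : Type} {f : α → α} {v : ℕ → α → ℕ} {m G : ℕ → ℕ} (h : Par f v m G)

include h

theorem v_div_pow {n n' : ℕ} (hn : n ≤ n') (x : α) : v n x = v n' x / 2 ^ (n' - n) := by
  induction hn with
  | refl => simp
  | @step k hk ih =>
    have hk' : n ≤ k := hk
    rw [ih, h.v_div k x, Nat.div_div_eq_div_mul, Nat.succ_sub hk', pow_succ, mul_comm]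

theorem v_le_of_le {n n' : ℕ} (hn : n ≤ n') {x y : α} (hxy : v n' x ≤ v n' y) :
    v n x ≤ v n y := by
  rw [v_div_pow h hn x, v_div_pow h hn y]
  exact Nat.div_le_div_right hxy

theorem v_eq_of_eq {n n' : ℕ} (hn : n ≤ n') {x y : α} (hxy : v n' x = v n' y) :
    v n x = v n y :=
  le_antisymm (v_le_of_le h hn hxy.le) (v_le_of_le h hn hxy.ge)

theorem m_mono {a b : ℕ} (hab : a ≤ b) : m a ≤ m b :=
  (strictMono_nat_of_lt_succ h.m_lt).monotone hab

theorem le_m (a : ℕ) : a ≤ m a := (strictMono_nat_of_lt_succ h.m_lt).id_le a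

theorem BB_lt_G (e : ℕ) : BB m G e + 1 ≤ G (e + 1) := h.G_le e

theorem G_le_BB (e : ℕ) : G e ≤ BB m G e :=
  Nat.le_mul_of_pos_left _ (Nat.pos_of_ne_zero (by positivity))

theorem BB_lt (e : ℕ) : BB m G e < BB m G (e + 1) :=
  lt_of_lt_of_le (BB_lt_G h e) (G_le_BB h (e + 1))

theorem BB_mono {a b : ℕ} (hab : a ≤ b) : BB m G a ≤ BB m G b :=
  (strictMono_nat_of_lt_succ (BB_lt h)).monotone hab

theorem le_BB (a : ℕ) : a ≤ BB m G a := (strictMono_nat_of_lt_succ (BB_lt h)).id_le a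

theorem BB_zero : BB m G 0 = 0 := by simp [BB, h.G0]

theorem G_lt (e : ℕ) : G e < G (e + 1) :=
  lt_of_lt_of_le (Nat.lt_succ_of_le (G_le_BB h e)) (BB_lt_G h e)

theorem G_mono {a b : ℕ} (hab : a ≤ b) : G a ≤ G b :=
  (strictMono_nat_of_lt_succ (G_lt h)).monotone hab

theorem le_G (a : ℕ) : a ≤ G a := (strictMono_nat_of_lt_succ (G_lt h)).id_le a

theorem UU_anti {a b : ℕ} (hab : a ≤ b) {x : α} (hx : UU f v m G b x) : UU f v m G a x :=
  fun i hi => v_le_of_le h (m_mono h hab) (hx i (hi.trans (G_mono h hab)))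

theorem hitU_aux (e n : ℕ) : ∀ x, v (m e) x ≤ n → ∃ i ≤ n * G e, UU f v m G e (f^[i] x) := by
  induction n with
  | zero =>
    intro x hx
    exact ⟨0, Nat.zero_le _, fun i _ => by simp only [Function.iterate_zero, id]; omega⟩
  | succ n ih =>
    intro x hx
    by_cases hU : UU f v m G e x
    · exact ⟨0, Nat.zero_le _, hU⟩
    · rw [UU] at hU
      push Not at hU
      obtain ⟨i, hi, hlt⟩ := hU
      obtain ⟨i', hi', hU'⟩ := ih (f^[i] x) (by omega)
      refine ⟨i' + i, ?_, ?_⟩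
      · rw [Nat.succ_mul]; omega
      · rw [Function.iterate_add_apply]; exact hU'

theorem hitU (e : ℕ) (x : α) : ∃ i ≤ BB m G e, UU f v m G e (f^[i] x) := by
  obtain ⟨i, hi, hU⟩ := hitU_aux h e (2 ^ (m e)) x (h.v_lt _ _).le
  exact ⟨i, hi, hU⟩

theorem exists_isR (e : ℕ) (x : α) : ∃ l ≤ BB m G e + 1, IsR f v m G e x l := by
  classical
  obtain ⟨i, hi, hU⟩ := hitU h e (f x)
  have hex : ∃ l, 0 < l ∧ UU f v m G e (f^[l] x) :=
    ⟨i + 1, Nat.succ_pos _, by rw [Function.iterate_succ_apply]; exact hU⟩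
  refine ⟨Nat.find hex, ?_, (Nat.find_spec hex).1, (Nat.find_spec hex).2, fun i' h0 hi' hU' =>
    Nat.find_min hex hi' ⟨h0, hU'⟩⟩
  exact (Nat.find_min' hex ⟨Nat.succ_pos _, by rw [Function.iterate_succ_apply]; exact hU⟩).trans
    (Nat.succ_le_succ hi)

omit h in
theorem isR_unique {e : ℕ} {x : α} {l l' : ℕ} (h1 : IsR f v m G e x l)
    (h2 : IsR f v m G e x l') : l = l' := by
  rcases lt_trichotomy l l' with hl | hl | hl
  · exact absurd h1.2.1 (h2.2.2 l h1.1 hl)
  · exact hl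
  · exact absurd h2.2.1 (h1.2.2 l' h2.1 hl)

theorem transfer {e a : ℕ} (ha : a ≤ e) {x y : α} (hxy : v (m (e + 1)) x = v (m (e + 1)) y)
    {l : ℕ} (hl : l ≤ BB m G e + 1) (hU : UU f v m G a (f^[l] x)) :
    UU f v m G a (f^[l] y) := by
  intro i hi
  have hie : i ≤ G e := hi.trans (G_mono h ha)
  have hl' : l ≤ 2 ^ (m e) * G e + 1 := hl
  have h1 := v_eq_of_eq h (m_mono h ha) (h.mod e x y hxy l (by omega))
  have h2 := v_eq_of_eq h (m_mono h ha) (h.mod e x y hxy (i + l) (by omega))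
  have h3 := hU i hi
  rw [← Function.iterate_add_apply] at h3 ⊢
  rw [← h1, ← h2]
  exact h3

theorem transfer_isR {e a : ℕ} (ha : a ≤ e) {x y : α}
    (hxy : v (m (e + 1)) x = v (m (e + 1)) y) {l : ℕ} (hl : l ≤ BB m G e + 1)
    (hR : IsR f v m G a x l) : IsR f v m G a y l :=
  ⟨hR.1, transfer h ha hxy hl hR.2.1, fun i h0 hi hU =>
    hR.2.2 i h0 hi (transfer h ha hxy.symm (by omega) hU)⟩

theorem exists_alpha {d : ℕ} (hd : 2 ≤ d) :
    ∃ a, BB m G a + 1 < d ∧ d ≤ BB m G (a + 1) + 1 := by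
  classical
  have hex : ∃ a, d ≤ BB m G a + 1 := ⟨d, (le_BB h d).trans (Nat.le_succ _)⟩
  have h0 : Nat.find hex ≠ 0 := by
    intro h0
    have := Nat.find_spec hex
    rw [h0, BB_zero h] at this
    omega
  obtain ⟨a, ha⟩ := Nat.exists_eq_succ_of_ne_zero h0
  refine ⟨a, ?_, ?_⟩
  · have := Nat.find_min hex (m := a) (by omega)
    omega
  · have := Nat.find_spec hex
    rwa [ha] at this

theorem alpha_unique {a b d : ℕ} (h1 : BB m G a + 1 < d) (h2 : d ≤ BB m G (a + 1) + 1)
    (h3 : BB m G b + 1 < d) (h4 : d ≤ BB m G (b + 1) + 1) : a = b := by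
  rcases lt_trichotomy a b with hl | hl | hl
  · have := BB_mono h (show a + 1 ≤ b from hl); omega
  · exact hl
  · have := BB_mono h (show b + 1 ≤ a from hl); omega

/-- A near return produces a cut. -/
theorem cut_of_return {e : ℕ} {z : α} (hU : UU f v m G e z) {d : ℕ}
    (hd : IsR f v m G e z d) (hdB : d ≤ BB m G e + 1)
    (hv : v (m (e + 1)) z = v (m (e + 1)) (f^[d] z)) :
    ∃ i ≤ BB m G e + 1, Cut f v m G e (f^[i] z) := by
  rcases Nat.lt_or_ge 1 d with hd2 | hd1
  · obtain ⟨a, ha1, ha2⟩ := exists_alpha h hd2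
    have hae : a ≤ e := by
      by_contra hc
      have := BB_mono h (show e ≤ a by omega)
      omega
    obtain ⟨r, hr, hR⟩ := exists_isR h a z
    have hrd : r < d := by omega
    have hr0 := hR.1
    refine ⟨r, by omega, Or.inr (Or.inr ⟨hd.2.2 r hr0 hrd, d - r, d, a, ?_, ?_, by omega, ?_,
      ha1, ha2, hR.2.1, ?_⟩)⟩
    · refine ⟨by omega, ?_, fun i h0 hi hU' => ?_⟩
      · rw [← Function.iterate_add_apply, Nat.sub_add_cancel hrd.le]; exact hd.2.1
      · rw [← Function.iterate_add_apply] at hU'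
        exact hd.2.2 (i + r) (by omega) (by omega) hU'
    · rw [← Function.iterate_add_apply, Nat.sub_add_cancel hrd.le]
      exact transfer_isR h le_rfl hv hdB hd
    · have h1 := h.mod e z (f^[d] z) hv r (by simp only [BB] at hdB; omega)
      rw [h1, ← Function.iterate_add_apply, ← Function.iterate_add_apply, add_comm]
    · rw [← Function.iterate_add_apply, Nat.sub_add_cancel hrd.le, Nat.sub_sub_self hrd.le]
      exact transfer_isR h hae hv (by omega) hR
  · have hd' : d = 1 := le_antisymm hd1 hd.1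
    subst hd'
    refine ⟨0, Nat.zero_le _, Or.inr (Or.inl ⟨hU, hd.2.1, ?_⟩)⟩
    exact hv.symm

theorem hitC_aux (e n : ℕ) : ∀ z, UU f v m G e z → 2 ^ (m (e + 1)) ≤ v (m (e + 1)) z + n →
    ∃ i ≤ (n + 1) * (BB m G e + 1), Cut f v m G e (f^[i] z) := by
  induction n with
  | zero =>
    intro z _ hz
    have := h.v_lt (m (e + 1)) z
    omega
  | succ n ih =>
    intro z hU hz
    by_cases hU1 : UU f v m G (e + 1) z
    · obtain ⟨d, hdB, hd⟩ := exists_isR h e z
      have hle : v (m (e + 1)) z ≤ v (m (e + 1)) (f^[d] z) :=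
        hU1 d (hdB.trans (BB_lt_G h e))
      rcases hle.lt_or_eq with hlt | heq
      · obtain ⟨i, hi, hC⟩ := ih (f^[d] z) hd.2.1 (by omega)
        refine ⟨i + d, ?_, ?_⟩
        · rw [Nat.succ_mul (n + 1)]; omega
        · rw [Function.iterate_add_apply]; exact hC
      · obtain ⟨i, hi, hC⟩ := cut_of_return h hU hd hdB heq
        refine ⟨i, hi.trans ?_, hC⟩
        exact Nat.le_mul_of_pos_left _ (Nat.succ_pos _)
    · exact ⟨0, Nat.zero_le _, Or.inl ⟨hU, hU1⟩⟩

/-- Every point reaches the cut set in bounded time. -/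
theorem hitC (e : ℕ) (x : α) : ∃ i ≤ PP m G e, Cut f v m G e (f^[i] x) := by
  obtain ⟨i, hi, hU⟩ := hitU h e x
  obtain ⟨j, hj, hC⟩ := hitC_aux h e (2 ^ (m (e + 1))) (f^[i] x) hU (by omega)
  refine ⟨j + i, ?_, by rw [Function.iterate_add_apply]; exact hC⟩
  simp only [PP]; omega

theorem sep_of_ne {x y : α} (hxy : x ≠ y) : ∃ n, ∀ N ≥ n, v N x ≠ v N y := by
  by_contra hc
  push Not at hc
  refine hxy (h.v_sep x y fun n => ?_)
  obtain ⟨N, hN, hv⟩ := hc n
  exact v_eq_of_eq h hN hv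

/-- A non-periodic point belongs to only finitely many cut sets. -/
theorem vanish {x : α} (hx : ∀ n > 0, f^[n] x ≠ x) : ∃ e0, ∀ e ≥ e0, ¬ Cut f v m G e x := by
  by_cases hU : ∀ e, UU f v m G e x
  · obtain ⟨n, hn⟩ := sep_of_ne h (hx 1 Nat.one_pos)
    refine ⟨n, fun e he hC => ?_⟩
    rcases hC with ⟨_, h1⟩ | ⟨_, _, h1⟩ | ⟨h1, _⟩
    · exact h1 (hU _)
    · exact hn (m (e + 1)) ((he.trans (Nat.le_succ e)).trans (le_m h (e + 1))) h1
    · exact h1 (hU _)
  · push Not at hU
    obtain ⟨e1, he1⟩ := hU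
    have hsep : ∀ d, ∃ n, 0 < d → ∀ N ≥ n, v N (f^[d] x) ≠ v N x := by
      intro d
      by_cases hd : 0 < d
      · obtain ⟨n, hn⟩ := sep_of_ne h (hx d hd)
        exact ⟨n, fun _ => hn⟩
      · exact ⟨0, fun h0 => absurd h0 hd⟩
    choose nf hnf using hsep
    refine ⟨e1 + ∑ d ∈ Finset.range (BB m G e1 + 2), nf d, fun e he hC => ?_⟩
    have hUe : ¬ UU f v m G e x := fun hU => he1 (UU_anti h (by omega) hU)
    rcases hC with ⟨h1, _⟩ | ⟨h1, _⟩ | ⟨_, j, d, a, hj, hd, hjd, hv, ha1, ha2, hUa, _⟩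
    · exact hUe h1
    · exact hUe h1
    · have hae : a < e1 := by
        by_contra hc
        exact he1 (UU_anti h (not_lt.1 hc) hUa)
      have hdB : d ≤ BB m G e1 + 1 := by
        have := BB_mono h (show a + 1 ≤ e1 from hae)
        omega
      have h2 : nf d ≤ ∑ d ∈ Finset.range (BB m G e1 + 2), nf d :=
        Finset.single_le_sum (f := nf) (fun _ _ => Nat.zero_le _)
          (Finset.mem_range.2 (by omega))
      have h3 := le_m h e
      exact hnf d (by omega) (m e) (by omega) hv.symm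

/-- The cut sets meet a periodic orbit in at most one point, for all but finitely many levels. -/
theorem periodic_cut {x : α} {n : ℕ} (hn : 0 < n) (hx : f^[n] x = x) :
    ∃ e0, ∀ e ≥ e0, ∀ i j, Cut f v m G e (f^[i] x) → Cut f v m G e (f^[j] x) →
      f^[i] x = f^[j] x := by
  -- any two points of the orbit
  have horb : ∀ i, ∃ i' < n, f^[i] x = f^[i'] x := fun i =>
    ⟨i % n, Nat.mod_lt _ hn, ((show Function.IsPeriodicPt f n x from hx).iterate_mod_apply i).symm⟩
  have hper : ∀ i, f^[n] (f^[i] x) = f^[i] x := by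
    intro i
    rw [← Function.iterate_add_apply, add_comm, Function.iterate_add_apply, hx]
  have hreach : ∀ i j, ∃ l ≤ n, f^[l] (f^[i] x) = f^[j] x := by
    intro i j
    obtain ⟨i', hi', h1⟩ := horb i
    obtain ⟨j', hj', h2⟩ := horb j
    rw [h1, h2]
    rcases le_total i' j' with hij | hij
    · refine ⟨j' - i', by omega, ?_⟩
      rw [← Function.iterate_add_apply, Nat.sub_add_cancel hij]
    · refine ⟨j' + n - i', by omega, ?_⟩
      rw [← Function.iterate_add_apply, Nat.sub_add_cancel (by omega),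
        Function.iterate_add_apply, hx]
  have hinj : ∀ l i j, f^[l] (f^[i] x) = f^[l] (f^[j] x) → f^[i] x = f^[j] x := by
    intro l i j hl
    have hml : ∀ i, f^[n * l] (f^[i] x) = f^[i] x := fun i =>
      (show Function.IsPeriodicPt f n (f^[i] x) from hper i).mul_const l
    have hle : l ≤ n * l := Nat.le_mul_of_pos_left _ hn
    have h1 : ∀ y, f^[n * l] y = f^[n * l - l] (f^[l] y) := fun y => by
      rw [← Function.iterate_add_apply, Nat.sub_add_cancel hle]
    rw [← hml i, ← hml j, h1, h1, hl]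
  -- separation
  have hsep : ∀ p : ℕ × ℕ, ∃ N0, ∀ N ≥ N0, v N (f^[p.1] x) = v N (f^[p.2] x) →
      f^[p.1] x = f^[p.2] x := by
    intro p
    by_cases hp : f^[p.1] x = f^[p.2] x
    · exact ⟨0, fun _ _ _ => hp⟩
    · obtain ⟨N0, hN0⟩ := sep_of_ne h hp
      exact ⟨N0, fun N hN hv => absurd hv (hN0 N hN)⟩
  choose nf hnf using hsep
  have hS : ∀ N ≥ ∑ p ∈ Finset.range n ×ˢ Finset.range n, nf p, ∀ i j,
      v N (f^[i] x) = v N (f^[j] x) → f^[i] x = f^[j] x := by
    intro N hN i j hv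
    obtain ⟨i', hi', h1⟩ := horb i
    obtain ⟨j', hj', h2⟩ := horb j
    rw [h1, h2] at hv ⊢
    refine hnf (i', j') N (le_trans ?_ hN) hv
    exact Finset.single_le_sum (f := nf) (fun _ _ => Nat.zero_le _)
      (Finset.mem_product.2 ⟨Finset.mem_range.2 hi', Finset.mem_range.2 hj'⟩)
  refine ⟨n + ∑ p ∈ Finset.range n ×ˢ Finset.range n, nf p, fun e he => ?_⟩
  -- the marker set has exactly one point on the orbit
  have hU1 : ∀ e' ≥ e, ∀ i j, UU f v m G e' (f^[i] x) → UU f v m G e' (f^[j] x) →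
      f^[i] x = f^[j] x := by
    intro e' he' i j hi hj
    have hG : n ≤ G e' := (by omega : n ≤ e').trans (le_G h e')
    obtain ⟨l, hl, h1⟩ := hreach i j
    obtain ⟨l', hl', h2⟩ := hreach j i
    have h3 := hi l (hl.trans hG)
    have h4 := hj l' (hl'.trans hG)
    rw [h1] at h3
    rw [h2] at h4
    exact hS (m e') (by have := le_m h e'; omega) i j (le_antisymm h3 h4)
  have hU2 : ∀ i, UU f v m G e (f^[i] x) → UU f v m G (e + 1) (f^[i] x) := by
    intro i hi
    obtain ⟨l, _, hl⟩ := hitU h (e + 1) x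
    rw [hU1 e le_rfl i l hi (UU_anti h (Nat.le_succ e) hl)]
    exact hl
  have hfix : ∀ i, UU f v m G e (f^[i] x) → UU f v m G e (f (f^[i] x)) →
      ∀ j, f^[j] x = f^[i] x := by
    intro i h1 h2 j
    rw [← Function.iterate_succ_apply' f i x] at h2
    have h3 : f (f^[i] x) = f^[i] x := by
      rw [← Function.iterate_succ_apply' f i x]
      exact (hU1 e le_rfl i (i + 1) h1 h2).symm
    obtain ⟨l, _, hl⟩ := hreach i j
    rw [← hl]
    exact Function.iterate_fixed h3 l
  intro i j hi hj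
  rcases hi with ⟨h1, h2⟩ | ⟨h1, h2, _⟩ | ⟨_, j1, d1, a1, hj1, hd1, hjd1, _, ha1, hb1, _, hR1⟩
  · exact absurd (hU2 i h1) h2
  · exact (hfix i h1 h2 j).symm
  · rcases hj with ⟨h1, h2⟩ | ⟨h1, h2, _⟩ | ⟨_, j2, d2, a2, hj2, hd2, hjd2, _, ha2, hb2, _, hR2⟩
    · exact absurd (hU2 j h1) h2
    · exact hfix j h1 h2 i
    · have hz : f^[j1] (f^[i] x) = f^[j2] (f^[j] x) := by
        have h1 := hj1.2.1
        have h2 := hj2.2.1
        rw [← Function.iterate_add_apply] at h1 h2 ⊢
        rw [← Function.iterate_add_apply]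
        exact hU1 e le_rfl _ _ h1 h2
      rw [hz] at hd1 hR1
      have hd : d1 = d2 := isR_unique hd1 hd2
      subst hd
      have ha : a1 = a2 := alpha_unique h ha1 hb1 ha2 hb2
      subst ha
      have hr : d1 - j1 = d1 - j2 := isR_unique hR1 hR2
      have hjj : j1 = j2 := by omega
      subst hjj
      exact hinj j1 i j hz

end

section

variable {α : Type} {f : α → α} {v : ℕ → α → ℕ} {m G : ℕ → ℕ} (h : Par f v m G)

open Classical in
/-- The time needed to reach the cut set. -/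
noncomputable def pTime (h : Par f v m G) (e : ℕ) (x : α) : ℕ :=
  Nat.find (⟨_, (hitC h e x).choose_spec.2⟩ : ∃ i, Cut f v m G e (f^[i] x))

/-- The first point of the forward orbit in the cut set. -/
noncomputable def sPt (h : Par f v m G) (e : ℕ) (x : α) : α := f^[pTime h e x] x

theorem pTime_spec (e : ℕ) (x : α) : Cut f v m G e (f^[pTime h e x] x) := by
  classical
  exact Nat.find_spec (⟨_, (hitC h e x).choose_spec.2⟩ : ∃ i, Cut f v m G e (f^[i] x))

theorem pTime_min {e : ℕ} {x : α} {i : ℕ} (hi : i < pTime h e x) : ¬ Cut f v m G e (f^[i] x) := by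
  classical
  exact Nat.find_min (⟨_, (hitC h e x).choose_spec.2⟩ : ∃ i, Cut f v m G e (f^[i] x)) hi

theorem pTime_le {e : ℕ} {x : α} {i : ℕ} (hi : Cut f v m G e (f^[i] x)) : pTime h e x ≤ i := by
  by_contra hc
  exact pTime_min h (not_le.1 hc) hi

theorem pTime_le_PP (e : ℕ) (x : α) : pTime h e x ≤ PP m G e := by
  obtain ⟨i, hi, hC⟩ := hitC h e x
  exact (pTime_le h hC).trans hi

theorem sPt_of_not_cut {e : ℕ} {x : α} (hx : ¬ Cut f v m G e x) : sPt h e x = sPt h e (f x) := by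
  have h0 : pTime h e x ≠ 0 := by
    intro h0
    have := pTime_spec h e x
    rw [h0] at this
    exact hx this
  have h1 : pTime h e x = pTime h e (f x) + 1 := by
    apply le_antisymm
    · apply pTime_le
      rw [Function.iterate_succ_apply]
      exact pTime_spec h e (f x)
    · obtain ⟨q, hq⟩ := Nat.exists_eq_succ_of_ne_zero h0
      rw [hq]
      refine Nat.succ_le_succ (pTime_le h ?_)
      rw [← Function.iterate_succ_apply, ← hq]
      exact pTime_spec h e x
  rw [sPt, sPt, h1, Function.iterate_succ_apply]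

/-- The main property: consecutive points of an orbit have the same representative at all but
finitely many levels. -/
theorem sPt_eventually (x : α) : ∃ e0, ∀ e ≥ e0, sPt h e x = sPt h e (f x) := by
  by_cases hx : ∀ n > 0, f^[n] x ≠ x
  · obtain ⟨e0, he0⟩ := vanish h hx
    exact ⟨e0, fun e he => sPt_of_not_cut h (he0 e he)⟩
  · push Not at hx
    obtain ⟨n, hn, hx⟩ := hx
    obtain ⟨e0, he0⟩ := periodic_cut h hn hx
    refine ⟨e0, fun e he => ?_⟩
    have h1 := pTime_spec h e x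
    have h2 := pTime_spec h e (f x)
    rw [sPt, sPt]
    rw [← Function.iterate_succ_apply] at h2 ⊢
    exact he0 e he _ _ h1 h2

end

end Pool.Agent.H51.TE
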