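import Mathlib
import Pool.Agent.H51.TE.Fun
import Pool.Agent.H51.TE.Marker

/-!
Computable parameters of the marker construction for a computable map of Cantor space.
-/

set_option autoImplicit false

namespace Pool.Agent.H51.TE

open Encodable Pool.Agent.H19 Filter

theorem comp_pow2 {α : Type*} [Primcodable α] {f : α → ℕ} (hf : Computable f) :
    Computable fun a => 2 ^ f a := by
  have h1 : Computable₂ (fun (_ : ℕ) (p : ℕ × ℕ) => 2 * p.2) :=
    Primrec.nat_mul.to_comp.comp (Computable.const 2) (Computable.snd.comp Computable.snd)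
  have h2 : Computable fun n : ℕ => 2 ^ n := by
    refine (Computable.nat_rec Computable.id (Computable.const 1) h1).of_eq fun n => ?_
    induction n with
    | zero => rfl
    | succ n ih =>
      simp only [id_eq] at ih ⊢
      rw [ih, pow_succ, mul_comm]
  exact h2.comp hf

theorem comp_add {α : Type*} [Primcodable α] {f g : α → ℕ} (hf : Computable f)
    (hg : Computable g) : Computable fun a => f a + g a :=
  Primrec.nat_add.to_comp.comp hf hg

theorem comp_mul {α : Type*} [Primcodable α] {f g : α → ℕ} (hf : Computable f)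
    (hg : Computable g) : Computable fun a => f a * g a :=
  Primrec.nat_mul.to_comp.comp hf hg

theorem comp_sub {α : Type*} [Primcodable α] {f g : α → ℕ} (hf : Computable f)
    (hg : Computable g) : Computable fun a => f a - g a :=
  Primrec.nat_sub.to_comp.comp hf hg

theorem comp_iter {α : Type*} [Primcodable α] {F : List Bool → List Bool} (hF : Computable F)
    {l : α → ℕ} {σ : α → List Bool} (hl : Computable l) (hσ : Computable σ) :
    Computable fun a => F^[l a] (σ a) :=
  Computable.comp (f := fun p : ℕ × List Bool => F^[p.1] p.2) (g := fun a => (l a, σ a))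
    (comp_iterate hF) (hl.pair hσ)

/-- The test for the next window. -/
def mTest (F : List Bool → List Bool) (mm Λ M : ℕ) : Bool :=
  decide (mm + 1 ≤ M) && (List.range (Λ + 1)).all fun l => (strs M).all fun σ =>
    decide (mm ≤ (F^[l] σ).length)

theorem mTest_iff {F : List Bool → List Bool} {mm Λ M : ℕ} : mTest F mm Λ M = true ↔
    mm + 1 ≤ M ∧ ∀ l ≤ Λ, ∀ σ : List Bool, σ.length = M → mm ≤ (F^[l] σ).length := by
  simp only [mTest, Bool.and_eq_true, decide_eq_true_eq, List.all_eq_true, List.mem_range,
    mem_strs, Nat.lt_succ_iff]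

theorem exists_mTest {F : List Bool → List Bool} {f : (ℕ → Bool) → ℕ → Bool} (hF : CFun F f)
    (mm Λ : ℕ) : ∃ M, mTest F mm Λ M = true := by
  have h1 : ∀ l, ∃ L, ∀ σ : List Bool, L ≤ σ.length → mm ≤ (F^[l] σ).length := fun l =>
    exists_len (hF.iterate l).mono (fun X => ⟨_, (hF.iterate l).maps X⟩) mm
  choose Lf hLf using h1
  refine ⟨(mm + 1) + ∑ l ∈ Finset.range (Λ + 1), Lf l,
    mTest_iff.2 ⟨Nat.le_add_right _ _, fun l hl σ hσ => hLf l σ ?_⟩⟩
  have h2 : Lf l ≤ ∑ l ∈ Finset.range (Λ + 1), Lf l :=
    Finset.single_le_sum (f := Lf) (fun _ _ => Nat.zero_le _)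
      (Finset.mem_range.2 (Nat.lt_succ_iff.2 hl))
  omega

open Classical in
/-- The next window. -/
noncomputable def nxtM {F : List Bool → List Bool} {f : (ℕ → Bool) → ℕ → Bool} (hF : CFun F f)
    (mm Λ : ℕ) : ℕ := Nat.find (exists_mTest hF mm Λ)

theorem nxtM_spec {F : List Bool → List Bool} {f : (ℕ → Bool) → ℕ → Bool} (hF : CFun F f)
    (mm Λ : ℕ) : mTest F mm Λ (nxtM hF mm Λ) = true := by
  classical
  exact Nat.find_spec (exists_mTest hF mm Λ)

theorem nxtM_min {F : List Bool → List Bool} {f : (ℕ → Bool) → ℕ → Bool} (hF : CFun F f)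
    {mm Λ k : ℕ} (hk : k < nxtM hF mm Λ) : ¬ mTest F mm Λ k = true := by
  classical
  exact Nat.find_min (exists_mTest hF mm Λ) hk

theorem comp_mTest {F : List Bool → List Bool} (hFc : Computable F) :
    Computable (fun x : (ℕ × ℕ) × ℕ => mTest F x.1.1 x.1.2 x.2) := by
  have h0 : Computable (fun x : (((ℕ × ℕ) × ℕ) × ℕ) × List Bool => F^[x.1.2] x.2) :=
    comp_iter hFc (Computable.snd.comp Computable.fst) Computable.snd
  have h1 : Computable (fun x : (((ℕ × ℕ) × ℕ) × ℕ) × List Bool =>
      decide (x.1.1.1.1 ≤ (F^[x.1.2] x.2).length)) :=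
    comp_decLe (Computable.fst.comp (Computable.fst.comp
      (Computable.fst.comp Computable.fst))) (Computable.list_length.comp h0)
  have h2 : Computable (fun x : ((ℕ × ℕ) × ℕ) × ℕ => (strs x.1.2).all fun σ =>
      decide (x.1.1.1 ≤ (F^[x.2] σ).length)) :=
    comp_list_all (g := fun (x : ((ℕ × ℕ) × ℕ) × ℕ) σ =>
      decide (x.1.1.1 ≤ (F^[x.2] σ).length))
      (comp_strs.comp (Computable.snd.comp Computable.fst)) h1
  have h3 : Computable (fun x : (ℕ × ℕ) × ℕ => (List.range (x.1.2 + 1)).all fun l =>
      (strs x.2).all fun σ => decide (x.1.1 ≤ (F^[l] σ).length)) :=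
    comp_list_all (g := fun (x : (ℕ × ℕ) × ℕ) l =>
      (strs x.2).all fun σ => decide (x.1.1 ≤ (F^[l] σ).length))
      (comp_range (Computable.succ.comp (Computable.snd.comp Computable.fst))) h2
  have h4 : Computable (fun x : (ℕ × ℕ) × ℕ => decide (x.1.1 + 1 ≤ x.2)) :=
    comp_decLe (Computable.succ.comp (Computable.fst.comp Computable.fst)) Computable.snd
  exact comp_and h4 h3

theorem comp_nxtM {F : List Bool → List Bool} {f : (ℕ → Bool) → ℕ → Bool} (hF : CFun F f)
    (hFc : Computable F) : Computable₂ (nxtM hF) := by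
  have h1 : Partrec₂ (fun (a : ℕ × ℕ) (L : ℕ) => (Part.some (mTest F a.1 a.2 L) :
    Part Bool)) := comp_mTest hFc
  refine (Partrec.rfind h1).of_eq fun a => ?_
  refine Part.eq_some_iff.2 (Nat.mem_rfind.2 ⟨?_, fun {m} hm => ?_⟩)
  · have := nxtM_spec hF a.1 a.2
    exact Part.mem_some_iff.2 this.symm
  · have := nxtM_min hF hm
    exact Part.mem_some_iff.2 (by simpa using this)

/-- The recursion step of the parameters. -/
noncomputable def stepM {F : List Bool → List Bool} {f : (ℕ → Bool) → ℕ → Bool} (hF : CFun F f)
    (p : ℕ × ℕ) : ℕ × ℕ := (nxtM hF p.1 (2 ^ p.1 * p.2 + 1 + p.2), 2 ^ p.1 * p.2 + 1)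

/-- The sequence of parameters. -/
noncomputable def mGs {F : List Bool → List Bool} {f : (ℕ → Bool) → ℕ → Bool} (hF : CFun F f) :
    ℕ → ℕ × ℕ
  | 0 => (0, 0)
  | n + 1 => stepM hF (mGs hF n)

theorem comp_mGs {F : List Bool → List Bool} {f : (ℕ → Bool) → ℕ → Bool} (hF : CFun F f)
    (hFc : Computable F) : Computable (mGs hF) := by
  have hb : Computable (fun p : ℕ × ℕ => 2 ^ p.1 * p.2 + 1) :=
    Computable.succ.comp (comp_mul (comp_pow2 Computable.fst) Computable.snd)
  have h3 : Computable (stepM hF) :=
    ((comp_nxtM hF hFc).comp Computable.fst (comp_add hb Computable.snd)).pair hb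
  have h2 : Computable₂ (fun (_ : ℕ) (p : ℕ × (ℕ × ℕ)) => stepM hF p.2) :=
    h3.comp (Computable.snd.comp Computable.snd)
  refine (Computable.nat_rec Computable.id (Computable.const (0, 0)) h2).of_eq fun n => ?_
  induction n with
  | zero => rfl
  | succ n ih =>
    simp only [id_eq] at ih ⊢
    rw [ih, mGs]

/-- Existence of computable parameters. -/
theorem exists_par {F : List Bool → List Bool} {f : (ℕ → Bool) → ℕ → Bool} (hF : CFun F f)
    (hFc : Computable F) : ∃ m G : ℕ → ℕ, Computable m ∧ Computable G ∧ Par f vv m G := by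
  have hspec : ∀ e, mTest F (mGs hF e).1 (2 ^ (mGs hF e).1 * (mGs hF e).2 + 1 + (mGs hF e).2)
      (mGs hF (e + 1)).1 = true := fun e => by
    rw [mGs, stepM]; exact nxtM_spec hF _ _
  have hsnd : ∀ e, (mGs hF (e + 1)).2 = 2 ^ (mGs hF e).1 * (mGs hF e).2 + 1 := fun e => by
    rw [mGs, stepM]
  refine ⟨fun e => (mGs hF e).1, fun e => (mGs hF e).2, Computable.fst.comp (comp_mGs hF hFc),
    Computable.snd.comp (comp_mGs hF hFc), vv_lt, vv_div, vv_sep, rfl, rfl,
    fun e => (mTest_iff.1 (hspec e)).1, fun e => (hsnd e).ge, fun e X Y hXY l hl => ?_⟩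
  have h1 := (mTest_iff.1 (hspec e)).2 l hl
  rw [vv_eq_iff] at hXY ⊢
  have hX := (hF.iterate l).take_eq X (h1 (pre X (mGs hF (e + 1)).1) (pre_length _ _))
  have hY := (hF.iterate l).take_eq Y (h1 (pre Y (mGs hF (e + 1)).1) (pre_length _ _))
  rw [← hX, ← hY, hXY]

/-! ### Decisions from the table of values -/

section

variable (m G : ℕ → ℕ)

/-- The value at level `a` of the `l`-th point of the table. -/
def qT (e a : ℕ) (t : List ℕ) (l : ℕ) : ℕ := t.getD l 0 / 2 ^ (m (e + 1) - m a)

/-- The `l`-th point of the table is in `U a`. -/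
def uT (e a : ℕ) (t : List ℕ) (l : ℕ) : Bool :=
  (List.range (G a + 1)).all fun i => decide (qT m e a t l ≤ qT m e a t (i + l))

/-- `j` is the return time of the `l`-th point to `U a`. -/
def rT (e a : ℕ) (t : List ℕ) (l j : ℕ) : Bool :=
  decide (0 < j) && (uT m G e a t (j + l) &&
    (List.range j).all fun i => decide (i = 0) || !uT m G e a t (i + l))

/-- The test for the third kind of cut. -/
def cT' (e : ℕ) (t : List ℕ) (l j d a : ℕ) : Bool :=
  rT m G e e t l j && (rT m G e e t (j + l) d && (decide (j < d) &&
    (decide (qT m e e t l = qT m e e t (d + l)) && (decide (BB m G a + 1 < d) &&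
      (decide (d ≤ BB m G (a + 1) + 1) && (uT m G e a t l && rT m G e a t (j + l) (d - j)))))))

/-- The `l`-th point of the table is in the cut set. -/
def cT (e : ℕ) (t : List ℕ) (l : ℕ) : Bool :=
  (uT m G e e t l && !uT m G e (e + 1) t l) ||
  ((uT m G e e t l && (uT m G e e t (1 + l) &&
    decide (qT m e (e + 1) t (1 + l) = qT m e (e + 1) t l))) ||
  (!uT m G e e t l && (List.range (BB m G e + 2)).any fun j =>
    (List.range (BB m G e + 2)).any fun d => (List.range (e + 1)).any fun a =>
      cT' m G e t l j d a))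

/-- The time to reach the cut set. -/
def pT (e : ℕ) (t : List ℕ) : ℕ := ((List.range (PP m G e + 1)).filter (cT m G e t)).headI

/-- The length of the tables. -/
def LL (e : ℕ) : ℕ := PP m G e + (2 * (BB m G e + 2) + (G (e + 1) + G e))

end

section comp

variable {m G : ℕ → ℕ} (hm : Computable m) (hG : Computable G)
  {α : Type*} [Primcodable α]

include hm in
theorem comp_qT {e a l : α → ℕ} {t : α → List ℕ} (he : Computable e) (ha : Computable a)
    (ht : Computable t) (hl : Computable l) :
    Computable fun x => qT m (e x) (a x) (t x) (l x) :=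
  comp_div ((Primrec.list_getD 0).to_comp.comp ht hl)
    (comp_pow2 (comp_sub (hm.comp (Computable.succ.comp he)) (hm.comp ha)))

include hm hG

theorem comp_BB {e : α → ℕ} (he : Computable e) : Computable fun x => BB m G (e x) :=
  comp_mul (comp_pow2 (hm.comp he)) (hG.comp he)

theorem comp_PP {e : α → ℕ} (he : Computable e) : Computable fun x => PP m G (e x) :=
  comp_add (comp_BB hm hG he) (comp_mul
    (Computable.succ.comp (comp_pow2 (hm.comp (Computable.succ.comp he))))
    (Computable.succ.comp (comp_BB hm hG he)))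

theorem comp_uT {e a l : α → ℕ} {t : α → List ℕ} (he : Computable e) (ha : Computable a)
    (ht : Computable t) (hl : Computable l) :
    Computable fun x => uT m G (e x) (a x) (t x) (l x) := by
  refine comp_list_all (f := fun x => List.range (G (a x) + 1))
    (g := fun x i => decide (qT m (e x) (a x) (t x) (l x) ≤ qT m (e x) (a x) (t x) (i + l x)))
    (comp_range (Computable.succ.comp (hG.comp ha))) ?_
  have h1 := comp_qT (α := α × ℕ) hm (he.comp Computable.fst) (ha.comp Computable.fst)
    (ht.comp Computable.fst) (hl.comp Computable.fst)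
  have h2 := comp_qT (α := α × ℕ) hm (he.comp Computable.fst) (ha.comp Computable.fst)
    (ht.comp Computable.fst) (comp_add Computable.snd (hl.comp Computable.fst))
  exact comp_decLe h1 h2

theorem comp_rT {e a l j : α → ℕ} {t : α → List ℕ} (he : Computable e) (ha : Computable a)
    (ht : Computable t) (hl : Computable l) (hj : Computable j) :
    Computable fun x => rT m G (e x) (a x) (t x) (l x) (j x) := by
  refine comp_and (comp_decLt (Computable.const 0) hj) (comp_and
    (comp_uT hm hG he ha ht (comp_add hj hl)) ?_)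
  refine comp_list_all (f := fun x => List.range (j x))
    (g := fun x i => decide (i = 0) || !uT m G (e x) (a x) (t x) (i + l x)) (comp_range hj) ?_
  have h1 := comp_uT (α := α × ℕ) hm hG (he.comp Computable.fst) (ha.comp Computable.fst)
    (ht.comp Computable.fst) (comp_add Computable.snd (hl.comp Computable.fst))
  exact comp_or (comp_decEq Computable.snd (Computable.const 0)) (comp_not h1)

theorem comp_cT' {e a l j d : α → ℕ} {t : α → List ℕ} (he : Computable e)
    (ht : Computable t) (hl : Computable l) (hj : Computable j) (hd : Computable d)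
    (ha : Computable a) :
    Computable fun x => cT' m G (e x) (t x) (l x) (j x) (d x) (a x) := by
  refine comp_and (comp_rT hm hG he he ht hl hj) (comp_and
    (comp_rT hm hG he he ht (comp_add hj hl) hd) (comp_and (comp_decLt hj hd) (comp_and
    (comp_decEq (comp_qT hm he he ht hl) (comp_qT hm he he ht (comp_add hd hl))) (comp_and
    (comp_decLt (Computable.succ.comp (comp_BB hm hG ha)) hd) (comp_and
    (comp_decLe hd (Computable.succ.comp (comp_BB hm hG (Computable.succ.comp ha)))) (comp_and
    (comp_uT hm hG he ha ht hl)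
    (comp_rT hm hG he ha ht (comp_add hj hl) (comp_sub hd hj))))))))

theorem comp_cT {e l : α → ℕ} {t : α → List ℕ} (he : Computable e)
    (ht : Computable t) (hl : Computable l) :
    Computable fun x => cT m G (e x) (t x) (l x) := by
  have hu := comp_uT hm hG he he ht hl
  have h1l : Computable fun x => 1 + l x := comp_add (Computable.const 1) hl
  refine comp_or (comp_and hu (comp_not (comp_uT hm hG he (Computable.succ.comp he) ht hl)))
    (comp_or (comp_and hu (comp_and (comp_uT hm hG he he ht h1l)
      (comp_decEq (comp_qT hm he (Computable.succ.comp he) ht h1l)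
        (comp_qT hm he (Computable.succ.comp he) ht hl)))) (comp_and (comp_not hu) ?_))
  have hr : Computable fun x => List.range (BB m G (e x) + 2) :=
    comp_range (Computable.succ.comp (Computable.succ.comp (comp_BB hm hG he)))
  refine comp_list_any (f := fun x => List.range (BB m G (e x) + 2))
    (g := fun x j => (List.range (BB m G (e x) + 2)).any fun d => (List.range (e x + 1)).any
      fun a => cT' m G (e x) (t x) (l x) j d a) hr ?_
  refine comp_list_any (α := α × ℕ) (f := fun x => List.range (BB m G (e x.1) + 2))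
    (g := fun x d => (List.range (e x.1 + 1)).any
      fun a => cT' m G (e x.1) (t x.1) (l x.1) x.2 d a) (hr.comp Computable.fst) ?_
  refine comp_list_any (α := (α × ℕ) × ℕ) (f := fun x => List.range (e x.1.1 + 1))
    (g := fun x a => cT' m G (e x.1.1) (t x.1.1) (l x.1.1) x.1.2 x.2 a)
    (comp_range (Computable.succ.comp (he.comp (Computable.fst.comp Computable.fst)))) ?_
  have p1 : Computable (fun x : ((α × ℕ) × ℕ) × ℕ => x.1.1.1) :=
    Computable.fst.comp (Computable.fst.comp Computable.fst)
  exact comp_cT' hm hG (he.comp p1) (ht.comp p1) (hl.comp p1)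
    (Computable.snd.comp (Computable.fst.comp Computable.fst))
    (Computable.snd.comp Computable.fst) Computable.snd

theorem comp_pT {e : α → ℕ} {t : α → List ℕ} (he : Computable e) (ht : Computable t) :
    Computable fun x => pT m G (e x) (t x) := by
  have h1 : Computable fun x => (List.range (PP m G (e x) + 1)).filter (cT m G (e x) (t x)) := by
    refine comp_list_filter (f := fun x => List.range (PP m G (e x) + 1))
      (g := fun x l => cT m G (e x) (t x) l)
      (comp_range (Computable.succ.comp (comp_PP hm hG he))) ?_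
    exact comp_cT (α := α × ℕ) hm hG (he.comp Computable.fst) (ht.comp Computable.fst)
      Computable.snd
  exact (Primrec.list_headI (α := ℕ)).to_comp.comp h1

theorem comp_LL {e : α → ℕ} (he : Computable e) : Computable fun x => LL m G (e x) :=
  comp_add (comp_PP hm hG he) (comp_add (comp_mul (Computable.const 2)
    (Computable.succ.comp (Computable.succ.comp (comp_BB hm hG he))))
    (comp_add (hG.comp (Computable.succ.comp he)) (hG.comp he)))

end comp

end Pool.Agent.H51.TE
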