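import Mathlib
import Pool.Agent.H19.Post

/-!
The block-wise finite injury construction of `Pool.Agent.H19`, for a sequence of uniformly
computable finite equivalence relations which need not be increasing: the operator is degree
invariant along every pair which is related at all but finitely many levels.
-/

set_option autoImplicit false

namespace Pool.Agent.H51.TE

open Encodable Nat.Partrec Pool.Agent.H19

/-- The relations `LevelRel k T 0`, `LevelRel k T 1`, … form a sequence of uniformly computable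
finite equivalence relations on Cantor space. -/
structure CompFin (k : ℕ → ℕ) (T : ℕ → ℕ → List Bool → List Bool) : Prop where
  computable_card : Computable k
  computable_map : Computable (fun p : ℕ × ℕ × List Bool => T p.1 p.2.1 p.2.2)
  monotone : ∀ e j σ τ, σ <+: τ → T e j σ <+: T e j τ
  total : ∀ e, ∀ j < k e, ∀ X, ∃ Y, Maps (T e j) X Y
  equivalence : ∀ e, Equivalence (LevelRel k T e)

/-- The growth function `u` of the lengths of oracle segments used by the construction. -/
structure Sys (k : ℕ → ℕ) (T : ℕ → ℕ → List Bool → List Bool) (u : ℕ → ℕ) : Prop where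
  hyp : CompFin k T
  comp : Computable u
  lt : ∀ s, u s < u (s + 1)
  len : ∀ s, ∀ e ≤ s, ∀ j < k e, ∀ σ : List Bool, σ.length = u (s + 1) → u s ≤ (T e j σ).length

section

variable {k : ℕ → ℕ} {T : ℕ → ℕ → List Bool → List Bool} {u : ℕ → ℕ}

variable (h : Sys k T u)

include h

theorem Sys.mono {s t : ℕ} (hst : s ≤ t) : u s ≤ u t :=
  (strictMono_nat_of_lt_succ h.lt).monotone hst

theorem Sys.le_u (s : ℕ) : s ≤ u s := (strictMono_nat_of_lt_succ h.lt).id_le s

theorem Sys.take_eq {e j s : ℕ} (he : e ≤ s) (hj : j < k e) {X Y : ℕ → Bool}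
    (hXY : Maps (T e j) X Y) : (T e j (pre X (u (s + 1)))).take (u s) = pre Y (u s) :=
  take_of_maps (h.hyp.monotone e j) hXY (h.len s e he j hj _ (pre_length _ _))

omit h in
theorem oc2_iff (h : Sys k T u) {X : ℕ → Bool} {e w s : ℕ} :
    Oc k T u X 2 e w s ↔ w = 0 ∧ EP k T u X e s := by
  have htake : (pre X (u (s + 1))).take (u s) = pre X (u s) := pre_take X (h.lt s).le
  simp only [Oc, EP]
  by_cases hs : s % 2 = 0
  · rw [newAt_even hs, mem_newP]
    constructor
    · rintro ⟨e', he, σ, hσ, ⟨ha, hr⟩ | ⟨j, hj, ha, hr⟩⟩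
      · simp only [Prod.mk.injEq, true_and] at hr
        obtain ⟨rfl, rfl, rfl⟩ := hr
        rw [htake] at ha
        exact ⟨rfl, hs, he, ha⟩
      · simp at hr
    · rintro ⟨rfl, _, he, ha⟩
      refine ⟨e, he, pre X (u (s + 1)), pre_length _ _, Or.inl ⟨?_, rfl⟩⟩
      rw [htake]; exact ha
  · rw [newAt_odd hs, mem_newN]
    constructor
    · rintro ⟨e', he, σ, hσ, ⟨ha, hr⟩ | ⟨e'', _, _, j, hj, ha, hr⟩⟩
      · simp at hr
      · simp at hr
    · rintro ⟨_, hs', _⟩
      exact absurd hs' hs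

theorem oc0_iff {X : ℕ → Bool} {e w s : ℕ} : Oc k T u X 0 e w s ↔
    ∃ Z, LevelRel k T e X Z ∧ EP k T u Z e s ∧ w = Nat.pair e (av k T u Z e s) := by
  simp only [Oc, EP, av]
  by_cases hs : s % 2 = 0
  · rw [newAt_even hs, mem_newP]
    constructor
    · rintro ⟨e', he, σ, hσ, ⟨ha, hr⟩ | ⟨j, hj, ha, hr⟩⟩
      · simp at hr
      · simp only [Prod.mk.injEq, true_and] at hr
        obtain ⟨rfl, rfl, rfl⟩ := hr
        obtain ⟨Z, hZ⟩ := h.hyp.total e j hj X
        rw [h.take_eq he hj hZ] at ha ⊢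
        exact ⟨Z, ⟨j, hj, hZ⟩, ⟨hs, he, ha⟩, rfl⟩
    · rintro ⟨Z, ⟨j, hj, hZ⟩, ⟨_, he, ha⟩, rfl⟩
      refine ⟨e, he, pre X (u (s + 1)), pre_length _ _, Or.inr ⟨j, hj, ?_, ?_⟩⟩
      · rw [h.take_eq he hj hZ]; exact ha
      · rw [h.take_eq he hj hZ]
  · rw [newAt_odd hs, mem_newN]
    constructor
    · rintro ⟨e', he, σ, hσ, ⟨ha, hr⟩ | ⟨e'', _, _, j, hj, ha, hr⟩⟩
      · simp at hr
      · simp at hr
    · rintro ⟨Z, _, ⟨hs', _⟩, _⟩
      exact absurd hs' hs

theorem oc3_iff {X : ℕ → Bool} {e w s : ℕ} :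
    Oc k T u X 3 e w s ↔ EN k T u X e s ∧ w = Nat.pair e (bv k T u X e s) := by
  have htake : (pre X (u (s + 1))).take (u s) = pre X (u s) := pre_take X (h.lt s).le
  simp only [Oc, EN, bv]
  by_cases hs : s % 2 = 0
  · rw [newAt_even hs, mem_newP]
    constructor
    · rintro ⟨e', he, σ, hσ, ⟨ha, hr⟩ | ⟨j, hj, ha, hr⟩⟩
      · simp at hr
      · simp at hr
    · rintro ⟨⟨hs', _⟩, _⟩
      omega
  · rw [newAt_odd hs, mem_newN]
    constructor
    · rintro ⟨e', he, σ, hσ, ⟨ha, hr⟩ | ⟨e'', _, _, j, hj, ha, hr⟩⟩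
      · simp only [Prod.mk.injEq, true_and] at hr
        obtain ⟨rfl, rfl, rfl⟩ := hr
        rw [htake] at ha ⊢
        exact ⟨⟨by omega, he, ha⟩, rfl⟩
      · simp at hr
    · rintro ⟨⟨_, he, ha⟩, rfl⟩
      refine ⟨e, he, pre X (u (s + 1)), pre_length _ _, Or.inl ⟨?_, ?_⟩⟩
      · rw [htake]; exact ha
      · rw [htake]

theorem oc1_iff {X : ℕ → Bool} {e w s : ℕ} : Oc k T u X 1 e w s ↔
    w = 0 ∧ e ≤ s ∧ ∃ e' ≤ e, ∃ Z, LevelRel k T e X Z ∧ EN k T u Z e' s := by
  simp only [Oc, EN]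
  by_cases hs : s % 2 = 0
  · rw [newAt_even hs, mem_newP]
    constructor
    · rintro ⟨e', he, σ, hσ, ⟨ha, hr⟩ | ⟨j, hj, ha, hr⟩⟩
      · simp at hr
      · simp at hr
    · rintro ⟨_, _, e', _, Z, _, ⟨hs', _⟩⟩
      omega
  · rw [newAt_odd hs, mem_newN]
    constructor
    · rintro ⟨e', he, σ, hσ, ⟨ha, hr⟩ | ⟨e'', he'', hee, j, hj, ha, hr⟩⟩
      · simp at hr
      · simp only [Prod.mk.injEq, true_and] at hr
        obtain ⟨rfl, rfl, rfl⟩ := hr
        obtain ⟨Z, hZ⟩ := h.hyp.total e j hj X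
        rw [h.take_eq he'' hj hZ] at ha
        exact ⟨rfl, he'', e', hee, Z, ⟨j, hj, hZ⟩, by omega, he, ha⟩
    · rintro ⟨rfl, he'', e', hee, Z, ⟨j, hj, hZ⟩, _, he, ha⟩
      refine ⟨e', he, pre X (u (s + 1)), pre_length _ _, Or.inr ⟨e, he'', hee, j, hj, ?_, rfl⟩⟩
      rw [h.take_eq he'' hj hZ]; exact ha

theorem u_le_iff {s t : ℕ} : u s ≤ u t ↔ s ≤ t :=
  (strictMono_nat_of_lt_succ h.lt).le_iff_le

theorem acted_iff {X : ℕ → Bool} {e t : ℕ} :
    acted (hist k T u t) e (pre X (u t)) = true ↔ ∃ s < t, EP k T u X e s := by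
  rw [acted, List.any_eq_true]
  constructor
  · rintro ⟨r, hr, hb⟩
    rw [Bool.and_eq_true, Bool.and_eq_true, decide_eq_true_eq, decide_eq_true_eq] at hb
    obtain ⟨h1, _, h3, h4⟩ := mem_hist_isPre.1 ⟨hr, hb.2⟩
    obtain ⟨i, e', w, s, σ⟩ := r
    obtain ⟨⟨rfl, rfl⟩, _⟩ := hb
    simp only at h1 h3 h4
    subst h3
    exact ⟨s, h1, ((oc2_iff h).1 h4).2⟩
  · rintro ⟨s, hs, hE⟩
    have h5 : Oc k T u X 2 e 0 s := (oc2_iff h).2 ⟨rfl, hE⟩
    obtain ⟨h6, h7⟩ := (mem_hist_isPre (k := k) (T := T) (u := u) (t := t) (L := u t) (X := X)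
      (r := (2, e, 0, s, pre X (u (s + 1))))).2 ⟨hs, (u_le_iff h).2 hs, rfl, h5⟩
    exact ⟨_, h6, by simp [h7]⟩

theorem inV_iff {X : ℕ → Bool} {w t L : ℕ} :
    inV (hist k T u t) w (pre X L) = true ↔
      ∃ s < t, u (s + 1) ≤ L ∧ ∃ e, Oc k T u X 0 e w s := by
  rw [inV, List.any_eq_true]
  constructor
  · rintro ⟨r, hr, hb⟩
    rw [Bool.and_eq_true, Bool.and_eq_true, decide_eq_true_eq, decide_eq_true_eq] at hb
    obtain ⟨h1, h2, h3, h4⟩ := mem_hist_isPre.1 ⟨hr, hb.2⟩
    obtain ⟨i, e', w, s, σ⟩ := r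
    obtain ⟨⟨rfl, rfl⟩, _⟩ := hb
    simp only at h1 h2 h3 h4
    subst h3
    exact ⟨s, h1, h2, e', h4⟩
  · rintro ⟨s, hs, h2, e, hE⟩
    obtain ⟨h6, h7⟩ := (mem_hist_isPre (k := k) (T := T) (u := u) (t := t) (L := L) (X := X)
      (r := (0, e, w, s, pre X (u (s + 1))))).2 ⟨hs, h2, rfl, hE⟩
    exact ⟨_, h6, by simp [h7]⟩

theorem inC_iff {X : ℕ → Bool} {w t L : ℕ} :
    inC (hist k T u t) w (pre X L) = true ↔
      ∃ s < t, u (s + 1) ≤ L ∧ ∃ e, Oc k T u X 3 e w s := by
  rw [inC, List.any_eq_true]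
  constructor
  · rintro ⟨r, hr, hb⟩
    rw [Bool.and_eq_true, Bool.and_eq_true, decide_eq_true_eq, decide_eq_true_eq] at hb
    obtain ⟨h1, h2, h3, h4⟩ := mem_hist_isPre.1 ⟨hr, hb.2⟩
    obtain ⟨i, e', w, s, σ⟩ := r
    obtain ⟨⟨rfl, rfl⟩, _⟩ := hb
    simp only at h1 h2 h3 h4
    subst h3
    exact ⟨s, h1, h2, e', h4⟩
  · rintro ⟨s, hs, h2, e, hE⟩
    obtain ⟨h6, h7⟩ := (mem_hist_isPre (k := k) (T := T) (u := u) (t := t) (L := L) (X := X)
      (r := (3, e, w, s, pre X (u (s + 1))))).2 ⟨hs, h2, rfl, hE⟩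
    exact ⟨_, h6, by simp [h7]⟩

theorem av_le_iff {X : ℕ → Bool} {e t N : ℕ} : av k T u X e t ≤ N ↔
    ∀ s < t, ∀ i ≤ 1, ∀ w, Oc k T u X i e w s → s + 1 ≤ N := by
  rw [av, aVal, supBy_le]
  constructor
  · intro hh s hs i hi w hO
    obtain ⟨h6, h7⟩ := (mem_hist_isPre (k := k) (T := T) (u := u) (t := t) (L := u t) (X := X)
      (r := (i, e, w, s, pre X (u (s + 1))))).2 ⟨hs, (u_le_iff h).2 hs, rfl, hO⟩
    have := hh _ h6 (by simp only [pa]; simp only at h7; simp [h7, hi])
    simpa using this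
  · intro hh r hr hb
    rw [pa, Bool.and_eq_true, Bool.and_eq_true, decide_eq_true_eq, decide_eq_true_eq] at hb
    obtain ⟨h1, h2, h3, h4⟩ := mem_hist_isPre.1 ⟨hr, hb.2⟩
    obtain ⟨i, e', w, s, σ⟩ := r
    obtain ⟨⟨hi, rfl⟩, _⟩ := hb
    simp only at h1 h2 h3 h4
    subst h3
    exact hh s h1 i hi w h4

theorem bv_le_iff {X : ℕ → Bool} {e t N : ℕ} : bv k T u X e t ≤ N ↔
    ∀ s < t, ∀ e' < e, ∀ w, Oc k T u X 0 e' w s → s + 1 ≤ N := by
  rw [bv, bVal, supBy_le]
  constructor
  · intro hh s hs e' he' w hO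
    obtain ⟨h6, h7⟩ := (mem_hist_isPre (k := k) (T := T) (u := u) (t := t) (L := u t) (X := X)
      (r := (0, e', w, s, pre X (u (s + 1))))).2 ⟨hs, (u_le_iff h).2 hs, rfl, hO⟩
    have := hh _ h6 (by simp only [pb]; simp only at h7; simp [h7, he'])
    simpa using this
  · intro hh r hr hb
    rw [pb, Bool.and_eq_true, Bool.and_eq_true, decide_eq_true_eq, decide_eq_true_eq] at hb
    obtain ⟨h1, h2, h3, h4⟩ := mem_hist_isPre.1 ⟨hr, hb.2⟩
    obtain ⟨i, e', w, s, σ⟩ := r
    obtain ⟨⟨rfl, he'⟩, _⟩ := hb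
    simp only at h1 h2 h3 h4 he'
    subst h3
    exact hh s h1 e' he' w h4

end

section

variable {k : ℕ → ℕ} {T : ℕ → ℕ → List Bool → List Bool} {u : ℕ → ℕ} (h : Sys k T u)

include h

theorem le_av {X : ℕ → Bool} {i e w s t : ℕ} (hs : s < t) (hi : i ≤ 1)
    (hO : Oc k T u X i e w s) : s + 1 ≤ av k T u X e t :=
  (av_le_iff h).1 le_rfl s hs i hi w hO

theorem av_le_self {X : ℕ → Bool} {e t : ℕ} : av k T u X e t ≤ t :=
  (av_le_iff h).2 fun _ hs _ _ _ _ => hs

theorem le_bv {X : ℕ → Bool} {e e' w s t : ℕ} (hs : s < t) (he : e' < e)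
    (hO : Oc k T u X 0 e' w s) : s + 1 ≤ bv k T u X e t :=
  (bv_le_iff h).1 le_rfl s hs e' he w hO

theorem bv_le_self {X : ℕ → Bool} {e t : ℕ} : bv k T u X e t ≤ t :=
  (bv_le_iff h).2 fun _ hs _ _ _ _ => hs

theorem oc_rel {e : ℕ} {X Y : ℕ → Bool} (hXY : LevelRel k T e X Y) {i w s : ℕ}
    (hi : i ≤ 1) (hO : Oc k T u X i e w s) : Oc k T u Y i e w s := by
  have hYX := (h.hyp.equivalence e).symm hXY
  rcases Nat.le_one_iff_eq_zero_or_eq_one.1 hi with rfl | rfl
  · obtain ⟨Z, hZ, h1, h2⟩ := (oc0_iff h).1 hO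
    exact (oc0_iff h).2 ⟨Z, (h.hyp.equivalence e).trans hYX hZ, h1, h2⟩
  · obtain ⟨h1, h2, e'', he, Z, hZ, h3⟩ := (oc1_iff h).1 hO
    exact (oc1_iff h).2 ⟨h1, h2, e'', he, Z, (h.hyp.equivalence e).trans hYX hZ, h3⟩

theorem av_rel {e : ℕ} {X Y : ℕ → Bool} (hXY : LevelRel k T e X Y) (t : ℕ) :
    av k T u X e t = av k T u Y e t := by
  have hYX := (h.hyp.equivalence e).symm hXY
  apply le_antisymm
  · exact (av_le_iff h).2 fun s hs i hi w hO => le_av h hs hi (oc_rel h hXY hi hO)
  · exact (av_le_iff h).2 fun s hs i hi w hO => le_av h hs hi (oc_rel h hYX hi hO)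

theorem oc0_witness {X : ℕ → Bool} {e w s : ℕ} (hO : Oc k T u X 0 e w s) :
    w = Nat.pair e (av k T u X e s) ∧ s % 2 = 0 := by
  obtain ⟨Z, hZ, h1, h2⟩ := (oc0_iff h).1 hO
  rw [av_rel h hZ]
  exact ⟨h2, h1.1⟩

theorem ep_unique {X : ℕ → Bool} {e s t : ℕ} (hs : EP k T u X e s) (ht : EP k T u X e t) :
    s = t := by
  have key : ∀ a b, EP k T u X e a → EP k T u X e b → ¬ a < b := by
    intro a b ha hb hab
    have h1 := hb.2.2
    rw [actP, (acted_iff h).2 ⟨a, hab, ha⟩] at h1
    simp at h1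
  exact le_antisymm (not_lt.1 (key t s ht hs)) (not_lt.1 (key s t hs ht))

theorem fin0 (X : ℕ → Bool) (e : ℕ) : {s | ∃ w, Oc k T u X 0 e w s}.Finite := by
  refine Set.Finite.subset (Set.Finite.biUnion (Set.finite_lt_nat (k e))
    (t := fun j => {s | ∃ Z, Maps (T e j) X Z ∧ EP k T u Z e s}) fun j _ => ?_) ?_
  · refine Set.Subsingleton.finite ?_
    rintro s ⟨Z, h1, h2⟩ s' ⟨Z', h3, h4⟩
    rw [maps_unique (h.hyp.monotone e j) h3 h1] at h4
    exact ep_unique h h2 h4
  · rintro s ⟨w, hO⟩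
    obtain ⟨Z, ⟨j, hj, hZ⟩, h1, _⟩ := (oc0_iff h).1 hO
    exact Set.mem_biUnion (show j ∈ {j | j < k e} from hj) ⟨Z, hZ, h1⟩

theorem bound0 (X : ℕ → Bool) (e : ℕ) :
    ∃ B, ∀ s ≥ B, ∀ e' < e, ∀ w, ¬ Oc k T u X 0 e' w s := by
  have hf : {s | ∃ e' < e, ∃ w, Oc k T u X 0 e' w s}.Finite := by
    refine Set.Finite.subset (Set.Finite.biUnion (Set.finite_lt_nat e)
      (t := fun e' => {s | ∃ w, Oc k T u X 0 e' w s}) fun e' _ => fin0 h X e') ?_
    rintro s ⟨e', he', hw⟩
    exact Set.mem_biUnion (show e' ∈ {j | j < e} from he') hw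
  obtain ⟨B, hB⟩ := bound_of_finite hf
  exact ⟨B, fun s hs e' he' w hO => hB s hs ⟨e', he', w, hO⟩⟩

theorem bv_eventually (X : ℕ → Bool) (e : ℕ) : ∃ B, ∀ t ≥ B, bv k T u X e t = bv k T u X e B := by
  obtain ⟨B, hB⟩ := bound0 h X e
  refine ⟨B, fun t ht => le_antisymm ?_ ?_⟩
  · refine (bv_le_iff h).2 fun s hs e' he' w hO => ?_
    by_cases hsB : s < B
    · exact le_bv h hsB he' hO
    · exact absurd hO (hB s (not_lt.1 hsB) e' he' w)
  · exact (bv_le_iff h).2 fun s hs e' he' w hO => le_bv h (lt_of_lt_of_le hs ht) he' hO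

theorem finN (X : ℕ → Bool) (e : ℕ) : {s | EN k T u X e s}.Finite := by
  obtain ⟨B, hB⟩ := bv_eventually h X e
  have key : ∀ a b, B ≤ a → EN k T u X e a → EN k T u X e b → ¬ a < b := by
    intro a b hBa ha hb hab
    have h1 := hb.2.2
    have h2 : Oc k T u X 3 e (Nat.pair e (bv k T u X e a)) a := (oc3_iff h).2 ⟨ha, rfl⟩
    have h3 : bv k T u X e a = bVal (hist k T u b) e (pre X (u b)) := by
      rw [hB a hBa, ← hB b (hBa.trans hab.le)]; rfl
    rw [h3] at h2
    rw [actN, (inC_iff h).2 ⟨a, hab, (u_le_iff h).2 hab, e, h2⟩] at h1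
    simp at h1
  refine Set.Finite.subset ((Set.finite_lt_nat B).union
    (Set.Subsingleton.finite (s := {s | B ≤ s ∧ EN k T u X e s}) ?_)) ?_
  · rintro s ⟨h1, h2⟩ s' ⟨h3, h4⟩
    exact le_antisymm (not_lt.1 (key s' s h3 h4 h2)) (not_lt.1 (key s s' h1 h2 h4))
  · intro s hs
    by_cases hsB : s < B
    · exact Or.inl hsB
    · exact Or.inr ⟨not_lt.1 hsB, hs⟩

theorem fin1 (X : ℕ → Bool) (e : ℕ) : {s | ∃ w, Oc k T u X 1 e w s}.Finite := by
  refine Set.Finite.subset (Set.Finite.biUnion (Set.finite_lt_nat (k e))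
    (t := fun j => ⋃ e' ∈ {e' | e' < e + 1}, {s | ∃ Z, Maps (T e j) X Z ∧ EN k T u Z e' s})
    fun j hj => ?_) ?_
  · refine Set.Finite.biUnion (Set.finite_lt_nat (e + 1)) fun e' _ => ?_
    obtain ⟨Z, hZ⟩ := h.hyp.total e j hj X
    refine (finN h Z e').subset ?_
    rintro s ⟨Z', h3, h4⟩
    rw [maps_unique (h.hyp.monotone e j) h3 hZ] at h4
    exact h4
  · rintro s ⟨w, hO⟩
    obtain ⟨_, _, e', he', Z, ⟨j, hj, hZ⟩, h1⟩ := (oc1_iff h).1 hO
    exact Set.mem_biUnion (show j ∈ {j | j < k e} from hj)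
      (Set.mem_biUnion (show e' ∈ {e' | e' < e + 1} from Nat.lt_succ_iff.2 he') ⟨Z, hZ, h1⟩)

theorem av_eventually (X : ℕ → Bool) (e : ℕ) : ∃ B, ∀ t ≥ B, av k T u X e t = av k T u X e B := by
  obtain ⟨B0, hB0⟩ := bound_of_finite (fin0 h X e)
  obtain ⟨B1, hB1⟩ := bound_of_finite (fin1 h X e)
  refine ⟨max B0 B1, fun t ht => le_antisymm ?_ ?_⟩
  · refine (av_le_iff h).2 fun s hs i hi w hO => ?_
    by_cases hsB : s < max B0 B1
    · exact le_av h hsB hi hO
    · exfalso
      rcases Nat.le_one_iff_eq_zero_or_eq_one.1 hi with rfl | rfl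
      · exact hB0 s ((le_max_left _ _).trans (not_lt.1 hsB)) ⟨w, hO⟩
      · exact hB1 s ((le_max_right _ _).trans (not_lt.1 hsB)) ⟨w, hO⟩
  · exact (av_le_iff h).2 fun s hs i hi w hO => le_av h (lt_of_lt_of_le hs ht) hi hO

end

section

variable {k : ℕ → ℕ} {T : ℕ → ℕ → List Bool → List Bool} {u : ℕ → ℕ} (h : Sys k T u)

include h

theorem not_code_V (X : ℕ → Bool) (c : Code) : ¬ CodeComputes c X (VB k T u X) := by
  rintro ⟨hc1, hc2⟩
  obtain ⟨B, hB⟩ := av_eventually h X (encode c)
  set e := encode c with he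
  have hce : Denumerable.ofNat Code e = c := Denumerable.ofNat_encode c
  set a := av k T u X e B with ha
  -- the final witness is not enumerated
  have h1 : ¬ VS k T u X (Nat.pair e a) := by
    rintro ⟨s, e', hO⟩
    obtain ⟨h2, h3⟩ := oc0_witness h hO
    obtain ⟨h4, h5⟩ := Nat.pair_eq_pair.1 h2
    subst h4
    have h6 : s + 1 ≤ av k T u X e (max B (s + 1)) :=
      le_av h (Nat.lt_of_lt_of_le (Nat.lt_succ_self s) (le_max_right _ _)) (Nat.zero_le 1) hO
    rw [hB _ (le_max_left _ _)] at h6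
    have := av_le_self h (X := X) (e := e) (t := s)
    omega
  -- hence the computation converges to zero on it
  obtain ⟨s0, hs0⟩ := hc2 (Nat.pair e a)
  have h2 : VB k T u X (Nat.pair e a) = false := by
    rw [← Bool.not_eq_true, VB_iff]; exact h1
  rw [h2] at hs0
  obtain ⟨k0, hk0⟩ := Code.evaln_complete.1 hs0
  -- the requirement acts along `X`
  have h3 : ∃ t, EP k T u X e t := by
    set t := 2 * (B + e + s0 + k0) with ht
    by_cases hact : acted (hist k T u t) e (pre X (u t)) = true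
    · obtain ⟨s, _, hs⟩ := (acted_iff h).1 hact
      exact ⟨s, hs⟩
    · refine ⟨t, by omega, by omega, actP_iff.2 ⟨by simpa using hact, s0, by omega, ?_⟩⟩
      have hle : s0 ≤ u t := le_trans (by omega : s0 ≤ t) (h.le_u t)
      rw [conv_iff, pre_take X hle, hce]
      have hav : aVal (hist k T u t) e (pre X (u t)) = a := hB t (by omega)
      rw [hav]
      exact Code.evaln_mono (by omega : k0 ≤ t) hk0
  obtain ⟨t, ht⟩ := h3
  have hO : Oc k T u X 0 e (Nat.pair e (av k T u X e t)) t :=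
    (oc0_iff h).2 ⟨X, (h.hyp.equivalence e).refl X, ht, rfl⟩
  obtain ⟨_, i, hi, hconv⟩ := actP_iff.1 ht.2.2
  have hle : i ≤ u t := hi.trans (h.le_u t)
  rw [conv_iff, pre_take X hle, hce] at hconv
  have h4 := hc1 _ _ _ (Code.evaln_sound (Option.mem_def.2 hconv))
  have h5 : VB k T u X (Nat.pair e (av k T u X e t)) = true := VB_iff.2 ⟨t, e, hO⟩
  change (0 : ℕ) = if VB k T u X (Nat.pair e (av k T u X e t)) = true then 1 else 0 at h4
  rw [h5] at h4
  simp at h4

/-- The approximation to `WB` at stage `t`. -/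
theorem wHat_eq {X : ℕ → Bool} {t i : ℕ} (hi : i ≤ t)
    (hV : ∀ p < i, p % 2 ≠ 0 → VS k T u X (p / 2) →
      ∃ s < t, ∃ e, Oc k T u X 0 e (p / 2) s) :
    wHat (hist k T u t) (pre X (u t)) i = pre (WB k T u X) i := by
  rw [wHat]
  refine List.map_congr_left fun p hp => ?_
  rw [List.mem_range] at hp
  by_cases hp2 : p % 2 = 0
  · simp only [hp2, decide_true, if_true, WB]
    exact pre_getD X (lt_of_lt_of_le (by omega : p / 2 < t) (h.le_u t)) false
  · simp only [hp2, decide_false, if_false, WB, Bool.false_eq_true]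
    rw [Bool.eq_iff_iff, inV_iff h, VB_iff]
    constructor
    · rintro ⟨s, _, _, e, hO⟩; exact ⟨s, e, hO⟩
    · intro hVS
      obtain ⟨s, hs, e, hO⟩ := hV p hp hp2 hVS
      exact ⟨s, hs, (u_le_iff h).2 hs, e, hO⟩

theorem not_code_C (X : ℕ → Bool) (c : Code) :
    ¬ CodeComputes c (WB k T u X) (CB k T u X) := by
  rintro ⟨hc1, hc2⟩
  obtain ⟨B, hB⟩ := bv_eventually h X (encode c)
  set e := encode c with he
  have hce : Denumerable.ofNat Code e = c := Denumerable.ofNat_encode c
  set b := bv k T u X e B with hb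
  by_cases hC : CS k T u X (Nat.pair e b)
  · -- the computation is preserved
    obtain ⟨t, e', hO⟩ := hC
    obtain ⟨hN, h2⟩ := (oc3_iff h).1 hO
    obtain ⟨h4, h5⟩ := Nat.pair_eq_pair.1 h2
    subst h4
    have hC : CS k T u X (Nat.pair e b) := ⟨t, e, hO⟩
    obtain ⟨_, i, hi, hconv⟩ := actN_iff.1 hN.2.2
    change conv t e (Nat.pair e (bv k T u X e t)) _ = true at hconv
    rw [← h5, wHat_eq h hi ?_, conv_iff, hce] at hconv
    · have h6 := hc1 _ _ _ (Code.evaln_sound (Option.mem_def.2 hconv))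
      rw [CB_iff.2 hC] at h6
      simp at h6
    · intro p hp hp2 ⟨s, e', hOs⟩
      refine ⟨s, ?_, e', hOs⟩
      by_contra hst
      obtain ⟨hw, hpar⟩ := oc0_witness h hOs
      have hpar' := hN.1
      have hts : t < s := by omega
      rcases lt_or_ge e' e with hee | hee
      · -- a positive requirement of higher priority acts later
        have h7 : s + 1 ≤ bv k T u X e (max B (s + 1)) :=
          le_bv h (Nat.lt_of_lt_of_le (Nat.lt_succ_self s) (le_max_right _ _)) hee hOs
        rw [hB _ (le_max_left _ _)] at h7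
        have := bv_le_self h (X := X) (e := e) (t := t)
        omega
      · have hle1 := Nat.left_le_pair e' (av k T u X e' s)
        have hle2 := Nat.right_le_pair e' (av k T u X e' s)
        rw [← hw] at hle1 hle2
        rcases lt_or_ge t e' with hte | hte
        · omega
        · have hO1 : Oc k T u X 1 e' 0 t :=
            (oc1_iff h).2 ⟨rfl, hte, e, hee, X, (h.hyp.equivalence e').refl X, hN⟩
          have := le_av h hts (le_refl 1) hO1
          omega
  · -- the computation converges to zero, and the requirement acts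
    obtain ⟨s0, hs0⟩ := hc2 (Nat.pair e b)
    have h2 : CB k T u X (Nat.pair e b) = false := by
      rw [← Bool.not_eq_true, CB_iff]; exact hC
    rw [h2] at hs0
    obtain ⟨k0, hk0⟩ := Code.evaln_complete.1 hs0
    -- a stage by which the approximation to `WB` below `s0` is correct
    have h3 : ∃ S, ∀ p < s0, VS k T u X (p / 2) → ∃ s < S, ∃ e, Oc k T u X 0 e (p / 2) s := by
      clear hs0 hk0
      induction s0 with
      | zero => exact ⟨0, fun p hp => absurd hp (Nat.not_lt_zero p)⟩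
      | succ n ih =>
        obtain ⟨S, hS⟩ := ih
        by_cases hV : VS k T u X (n / 2)
        · obtain ⟨s, e', hO⟩ := hV
          refine ⟨max S (s + 1), fun p hp hVp => ?_⟩
          rcases Nat.lt_succ_iff_lt_or_eq.1 hp with hp | rfl
          · obtain ⟨s', hs', e'', hO'⟩ := hS p hp hVp
            exact ⟨s', lt_of_lt_of_le hs' (le_max_left _ _), e'', hO'⟩
          · exact ⟨s, lt_of_lt_of_le (Nat.lt_succ_self s) (le_max_right _ _), e', hO⟩
        · refine ⟨S, fun p hp hVp => ?_⟩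
          rcases Nat.lt_succ_iff_lt_or_eq.1 hp with hp | rfl
          · exact hS p hp hVp
          · exact absurd hVp hV
    obtain ⟨S, hS⟩ := h3
    set t := 2 * (B + e + s0 + k0 + S) + 1 with ht
    have hbt : bVal (hist k T u t) e (pre X (u t)) = b := hB t (by omega)
    have hin : inC (hist k T u t) (Nat.pair e b) (pre X (u t)) = false := by
      rw [← Bool.not_eq_true, inC_iff h]
      rintro ⟨s, _, _, e', hO⟩
      exact hC ⟨s, e', hO⟩
    have hN : EN k T u X e t := by
      refine ⟨by omega, by omega, actN_iff.2 ⟨?_, s0, by omega, ?_⟩⟩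
      · rw [hbt]; exact hin
      · rw [hbt, wHat_eq h (by omega) ?_, conv_iff, hce]
        · exact Code.evaln_mono (by omega : k0 ≤ t) hk0
        · intro p hp _ hVp
          obtain ⟨s, hs, h4⟩ := hS p hp hVp
          exact ⟨s, by omega, h4⟩
    refine hC ⟨t, e, (oc3_iff h).2 ⟨hN, ?_⟩⟩
    rw [bv, hbt]

end

section

variable {k : ℕ → ℕ} {T : ℕ → ℕ → List Bool → List Bool} (h : CompFin k T)

include h

theorem exists_growTest (s v : ℕ) : ∃ L, growTest k T s v L = true := by
  have h1 : ∀ e j, ∃ L, j < k e → ∀ σ : List Bool, L ≤ σ.length → v ≤ (T e j σ).length := by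
    intro e j
    by_cases hj : j < k e
    · obtain ⟨L, hL⟩ := exists_len (h.monotone e j) (h.total e j hj) v
      exact ⟨L, fun _ => hL⟩
    · exact ⟨0, fun hj' => absurd hj' hj⟩
  choose Lf hLf using h1
  refine ⟨(v + 1) + ∑ e ∈ Finset.range (s + 1), ∑ j ∈ Finset.range (k e), Lf e j,
    growTest_iff.2 ⟨Nat.le_add_right _ _, fun e he j hj σ hσ => hLf e j hj σ ?_⟩⟩
  have h2 : Lf e j ≤ ∑ j ∈ Finset.range (k e), Lf e j :=
    Finset.single_le_sum (f := fun j => Lf e j) (fun _ _ => Nat.zero_le _) (Finset.mem_range.2 hj)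
  have h3 : ∑ j ∈ Finset.range (k e), Lf e j ≤
      ∑ e ∈ Finset.range (s + 1), ∑ j ∈ Finset.range (k e), Lf e j :=
    Finset.single_le_sum (f := fun e => ∑ j ∈ Finset.range (k e), Lf e j)
      (fun _ _ => Nat.zero_le _) (Finset.mem_range.2 (Nat.lt_succ_iff.2 he))
  omega

theorem exists_sys : ∃ u, Sys k T u := by
  classical
  let nxt : ℕ → ℕ → ℕ := fun s v => Nat.find (exists_growTest h s v)
  have htest : Computable (fun x : (ℕ × ℕ) × ℕ => growTest k T x.1.1 x.1.2 x.2) := by
    refine comp_and (comp_decLe (Computable.succ.comp (Computable.snd.comp Computable.fst))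
      Computable.snd) ?_
    refine comp_list_all (g := fun (x : (ℕ × ℕ) × ℕ) e => (List.range (k e)).all fun j =>
      (strs x.2).all fun σ => decide (x.1.2 ≤ (T e j σ).length))
      (comp_range (Computable.succ.comp (Computable.fst.comp Computable.fst))) ?_
    refine comp_list_all (g := fun (x : ((ℕ × ℕ) × ℕ) × ℕ) j =>
      (strs x.1.2).all fun σ => decide (x.1.1.2 ≤ (T x.2 j σ).length))
      (comp_range (h.computable_card.comp Computable.snd)) ?_
    refine comp_list_all (g := fun (x : (((ℕ × ℕ) × ℕ) × ℕ) × ℕ) σ =>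
      decide (x.1.1.1.2 ≤ (T x.1.2 x.2 σ).length))
      (comp_strs.comp (Computable.snd.comp (Computable.fst.comp Computable.fst))) ?_
    refine comp_decLe (Computable.snd.comp (Computable.fst.comp (Computable.fst.comp
      (Computable.fst.comp Computable.fst)))) (Computable.list_length.comp ?_)
    exact comp_T h.computable_map (Computable.snd.comp (Computable.fst.comp Computable.fst))
      (Computable.snd.comp Computable.fst) Computable.snd
  have hnxt : Computable₂ nxt := by
    have h1 : Partrec₂ (fun (a : ℕ × ℕ) (L : ℕ) => (Part.some (growTest k T a.1 a.2 L) :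
      Part Bool)) := htest
    refine (Partrec.rfind h1).of_eq fun a => ?_
    refine Part.eq_some_iff.2 (Nat.mem_rfind.2 ⟨?_, fun {m} hm => ?_⟩)
    · have := Nat.find_spec (exists_growTest h a.1 a.2)
      exact Part.mem_some_iff.2 this.symm
    · have := Nat.find_min (exists_growTest h a.1 a.2) hm
      exact Part.mem_some_iff.2 (by simpa using this)
  let u : ℕ → ℕ := fun n => Nat.rec 0 (fun s v => nxt s v) n
  have hu : Computable u := by
    have h2 : Computable₂ (fun (_ : ℕ) (p : ℕ × ℕ) => nxt p.1 p.2) :=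
      hnxt.comp (Computable.fst.comp Computable.snd) (Computable.snd.comp Computable.snd)
    exact Computable.nat_rec Computable.id (Computable.const 0) h2
  have hspec : ∀ s, growTest k T s (u s) (u (s + 1)) = true := fun s =>
    Nat.find_spec (exists_growTest h s (u s))
  exact ⟨u, h, hu, fun s => (growTest_iff.1 (hspec s)).1, fun s => (growTest_iff.1 (hspec s)).2⟩

end

section

variable {k : ℕ → ℕ} {T : ℕ → ℕ → List Bool → List Bool} {u : ℕ → ℕ} (h : Sys k T u)

include h

theorem vs_iff {X : ℕ → Bool} {w : ℕ} :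
    VS k T u X w ↔ ∃ s, inV (hist k T u s) w (pre X s) = true := by
  constructor
  · rintro ⟨s, e, hO⟩
    refine ⟨u (s + 1), (inV_iff h).2 ⟨s, ?_, le_rfl, e, hO⟩⟩
    exact lt_of_lt_of_le (Nat.lt_succ_self s) (h.le_u (s + 1))
  · rintro ⟨s, hs⟩
    obtain ⟨s', _, _, e, hO⟩ := (inV_iff h).1 hs
    exact ⟨s', e, hO⟩

theorem cs_iff {X : ℕ → Bool} {w : ℕ} :
    CS k T u X w ↔ ∃ s, inC (hist k T u s) w (pre X s) = true := by
  constructor
  · rintro ⟨s, e, hO⟩
    refine ⟨u (s + 1), (inC_iff h).2 ⟨s, ?_, le_rfl, e, hO⟩⟩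
    exact lt_of_lt_of_le (Nat.lt_succ_self s) (h.le_u (s + 1))
  · rintro ⟨s, hs⟩
    obtain ⟨s', _, _, e, hO⟩ := (inC_iff h).1 hs
    exact ⟨s', e, hO⟩

theorem comp_hist' : Computable (hist k T u) :=
  comp_hist h.hyp.computable_card h.hyp.computable_map h.comp

theorem exists_code_W : ∃ r : Code, ∀ X n,
    (∃ s, (r.eval (encode (n, pre X s))).Dom) ↔ WB k T u X n = true := by
  have h1 : Computable₂ (fun (n : ℕ) (σ : List Bool) =>
      if decide (n % 2 = 0) then σ.getD (n / 2) false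
        else inV (hist k T u σ.length) (n / 2) σ) := by
    have hd : Computable (fun x : ℕ × List Bool => x.1 / 2) :=
      comp_div Computable.fst (Computable.const 2)
    refine comp_ite (c := fun x : ℕ × List Bool => decide (x.1 % 2 = 0))
      (comp_decEq (comp_mod Computable.fst (Computable.const 2)) (Computable.const 0)) ?_ ?_
    · exact comp_getD Computable.snd hd
    · exact comp_inV ((comp_hist' h).comp (Computable.list_length.comp Computable.snd)) hd
        Computable.snd
  obtain ⟨r, hr⟩ := exists_code_dom h1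
  refine ⟨r, fun X n => ?_⟩
  simp only [hr, pre_length]
  by_cases hn : n % 2 = 0
  · simp only [hn, decide_true, if_true, WB]
    constructor
    · rintro ⟨s, hs⟩
      by_cases hns : n / 2 < s
      · rwa [pre_getD X hns] at hs
      · rw [List.getD_eq_default] at hs
        · simp at hs
        · rw [pre_length]; omega
    · intro hX
      exact ⟨n / 2 + 1, by rw [pre_getD X (Nat.lt_succ_self _)]; exact hX⟩
  · simp only [hn, decide_false, if_false, WB, Bool.false_eq_true]
    rw [VB_iff, vs_iff h]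

theorem exists_code_C : ∃ r : Code, ∀ X n,
    (∃ s, (r.eval (encode (n, pre X s))).Dom) ↔ CB k T u X n = true := by
  have h1 : Computable₂ (fun (n : ℕ) (σ : List Bool) => inC (hist k T u σ.length) n σ) :=
    comp_inC ((comp_hist' h).comp (Computable.list_length.comp Computable.snd)) Computable.fst
        Computable.snd
  obtain ⟨r, hr⟩ := exists_code_dom h1
  refine ⟨r, fun X n => ?_⟩
  simp only [hr, pre_length]
  rw [CB_iff, cs_iff h]

theorem vs_rel {e : ℕ} {X Y : ℕ → Bool} (hXY : ∀ e' ≥ e, LevelRel k T e' X Y) {w : ℕ}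
    (hw : e ≤ w.unpair.1) (hV : VS k T u X w) : VS k T u Y w := by
  obtain ⟨s, e', hO⟩ := hV
  have h1 := (oc0_witness h hO).1
  have h2 : e ≤ e' := by rw [h1, Nat.unpair_pair] at hw; exact hw
  exact ⟨s, e', oc_rel h (hXY e' h2) (Nat.zero_le 1) hO⟩

theorem vs_fin (X : ℕ → Bool) (e : ℕ) : {w | VS k T u X w ∧ w.unpair.1 < e}.Finite := by
  refine Set.Finite.subset (Set.Finite.biUnion (Set.finite_lt_nat e)
    (t := fun e' => (fun s => Nat.pair e' (av k T u X e' s)) ''
      {s | ∃ w, Oc k T u X 0 e' w s}) fun e' _ => (fin0 h X e').image _) ?_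
  rintro w ⟨⟨s, e', hO⟩, hw⟩
  have h1 := (oc0_witness h hO).1
  rw [h1, Nat.unpair_pair] at hw
  exact Set.mem_biUnion (show e' ∈ {e' | e' < e} from hw) ⟨s, ⟨w, hO⟩, h1.symm⟩

/-- Invariance of the operator. -/
theorem wb_le_of_rel {e : ℕ} {X Y : ℕ → Bool} (hXY : ∀ e' ≥ e, LevelRel k T e' X Y) :
    TuringReducible (chi (WB k T u Y)) (chi (WB k T u X)) := by
  classical
  have hYX : ∀ e' ≥ e, LevelRel k T e' Y X := fun e' he' =>
    (h.hyp.equivalence e').symm (hXY e' he')
  obtain ⟨j, hj, hM⟩ := hXY e le_rfl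
  obtain ⟨l, hl⟩ : ∃ l : List ℕ, ∀ w, w ∈ l ↔ (VS k T u Y w ∧ w.unpair.1 < e) :=
    ⟨(vs_fin h Y e).toFinset.toList, fun w => by simp⟩
  let F : ℕ → List Bool → Bool := fun n σ =>
    if decide (n % 2 = 0) then
      (T e j ((List.range (σ.length / 2)).map (fun i => σ.getD (2 * i) false))).getD (n / 2) false
    else if decide ((n / 2).unpair.1 < e) then l.any (fun x => decide (x = n / 2))
      else σ.getD n false
  have hF : Computable₂ F := by
    have hd : Computable (fun x : ℕ × List Bool => x.1 / 2) :=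
      comp_div Computable.fst (Computable.const 2)
    refine comp_ite (c := fun x : ℕ × List Bool => decide (x.1 % 2 = 0))
      (comp_decEq (comp_mod Computable.fst (Computable.const 2)) (Computable.const 0)) ?_ ?_
    · refine comp_getD (comp_T h.hyp.computable_map (Computable.const e) (Computable.const j) ?_) hd
      refine comp_list_map (g := fun (x : ℕ × List Bool) i => x.2.getD (2 * i) false)
        (comp_range (comp_div (Computable.list_length.comp Computable.snd)
          (Computable.const 2))) ?_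
      exact comp_getD (Computable.snd.comp Computable.fst)
        (Primrec.nat_mul.to_comp.comp (Computable.const 2) Computable.snd)
    · refine comp_ite (c := fun x : ℕ × List Bool => decide ((x.1 / 2).unpair.1 < e))
        (comp_decLt (Computable.fst.comp (Computable.unpair.comp hd)) (Computable.const e)) ?_ ?_
      · exact comp_list_any (f := fun _ : ℕ × List Bool => l)
          (g := fun (x : ℕ × List Bool) y => decide (y = x.1 / 2)) (Computable.const l)
          (comp_decEq Computable.snd (hd.comp Computable.fst))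
      · exact comp_getD Computable.snd Computable.fst
  let g : ℕ → ℕ := fun n => 2 * u (e + n + 1 + 1) + (n + 1)
  have hg : Computable g := by
    have h1 : Computable (fun n : ℕ => e + n + 1 + 1) :=
      Computable.succ.comp (Computable.succ.comp
        (Primrec.nat_add.to_comp.comp (Computable.const e) Computable.id))
    exact Primrec.nat_add.to_comp.comp (Primrec.nat_mul.to_comp.comp (Computable.const 2)
      (h.comp.comp h1)) Computable.succ
  refine turingReducible_of_computable hF hg fun n => ?_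
  have hgn : n < g n := by simp only [g]; omega
  by_cases hn : n % 2 = 0
  · simp only [F, hn, decide_true, if_true, pre_length]
    have h1 : (List.range (g n / 2)).map (fun i => (pre (WB k T u X) (g n)).getD (2 * i) false) =
        pre X (g n / 2) := by
      refine List.map_congr_left fun i hi => ?_
      rw [List.mem_range] at hi
      rw [pre_getD _ (by omega : 2 * i < g n)]
      simp [WB]
    rw [h1]
    have h2 : WB k T u Y n = Y (n / 2) := by simp [WB, hn]
    rw [h2]
    -- the image has large length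
    have h3 : u (e + n + 1) ≤ (T e j (pre X (u (e + n + 1 + 1)))).length :=
      h.len (e + n + 1) e (by omega) j hj _ (pre_length _ _)
    have h4 : (T e j (pre X (u (e + n + 1 + 1)))).length ≤ (T e j (pre X (g n / 2))).length := by
      refine List.IsPrefix.length_le (h.hyp.monotone e j _ _ (pre_mono X ?_))
      simp only [g]; omega
    have h5 : e + n + 1 ≤ u (e + n + 1) := h.le_u (e + n + 1)
    have h7 : n / 2 < (T e j (pre X (g n / 2))).length := by omega
    have h8 := take_of_maps (h.hyp.monotone e j) hM (L := g n / 2) (n := n / 2 + 1) h7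
    have h9 : (T e j (pre X (g n / 2)))[n / 2]? = some (Y (n / 2)) := by
      rw [← List.getElem?_take_of_lt (Nat.lt_succ_self (n / 2)), h8,
        pre_getElem? _ (Nat.lt_succ_self _)]
    rw [List.getD_eq_getElem?_getD, h9]; rfl
  · have h2 : WB k T u Y n = VB k T u Y (n / 2) := by simp [WB, hn]
    rw [h2]
    by_cases hw : (n / 2).unpair.1 < e
    · simp only [F, hn, decide_false, Bool.false_eq_true, if_false, hw, decide_true, if_true]
      rw [Bool.eq_iff_iff, VB_iff, List.any_eq_true]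
      constructor
      · rintro ⟨x, hx, hxn⟩
        rw [decide_eq_true_eq] at hxn
        subst hxn
        exact ((hl _).1 hx).1
      · intro hV
        exact ⟨n / 2, (hl _).2 ⟨hV, hw⟩, by simp⟩
    · simp only [F, hn, decide_false, Bool.false_eq_true, if_false, hw]
      rw [pre_getD _ hgn]
      have h3 : WB k T u X n = VB k T u X (n / 2) := by simp [WB, hn]
      rw [h3, Bool.eq_iff_iff, VB_iff, VB_iff]
      exact ⟨vs_rel h hXY (not_lt.1 hw), vs_rel h hYX (not_lt.1 hw)⟩

end

/-- The operator obtained from a sequence of uniformly computable finite equivalence relations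
solves Post's problem everywhere and is invariant along every pair which is related at all but
finitely many levels. -/
theorem liminf_construction {k : ℕ → ℕ} {T : ℕ → ℕ → List Bool → List Bool}
    (h : CompFin k T) : ∃ r : Code,
      (∀ X : ℕ → Bool,
        TuringReducible (chr {n | X n = true}) (chr (opSet r X)) ∧
        ¬ TuringReducible (chr (opSet r X)) (chr {n | X n = true}) ∧
        TuringReducible (chr (opSet r X)) (chr (jumpSet X)) ∧
        ¬ TuringReducible (chr (jumpSet X)) (chr (opSet r X))) ∧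
      ∀ (e : ℕ) (X Y : ℕ → Bool), (∀ e' ≥ e, LevelRel k T e' X Y) →
        TuringReducible (chr (opSet r X)) (chr (opSet r Y)) ∧
        TuringReducible (chr (opSet r Y)) (chr (opSet r X)) := by
  obtain ⟨u, hu⟩ := exists_sys h
  obtain ⟨r, hr⟩ := exists_code_W hu
  obtain ⟨rc, hrc⟩ := exists_code_C hu
  have hW : ∀ X, chr (opSet r X) = chi (WB k T u X) := fun X => chr_eq_chi (hr X)
  have hX : ∀ X : ℕ → Bool, chr {n | X n = true} = chi X := fun X => chr_eq_chi fun n => Iff.rfl
  classical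
  have hJ : ∀ X, chr (jumpSet X) = chi (fun n => decide (n ∈ jumpSet X)) := fun X =>
    chr_eq_chi fun n => by simp
  -- a set uniformly enumerable from `X` is reducible to the jump of `X`
  have hmj : ∀ (c : Code) (X B : ℕ → Bool),
      (∀ n, (∃ s, (c.eval (encode (n, pre X s))).Dom) ↔ B n = true) →
      TuringReducible (chi B) (chi (fun n => decide (n ∈ jumpSet X))) := by
    intro c X B hB
    have hp : Computable (fun n : ℕ => Nat.pair (encode c) n) :=
      comp_natpair (Computable.const _) Computable.id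
    refine turingReducible_of_computable (F := fun n σ => σ.getD (Nat.pair (encode c) n) false)
      (g := fun n => Nat.pair (encode c) n + 1)
      (comp_getD Computable.snd (hp.comp Computable.fst)) (Computable.succ.comp hp) fun n => ?_
    rw [pre_getD _ (Nat.lt_succ_self _), Bool.eq_iff_iff, decide_eq_true_eq, ← hB n]
    show (∃ s : ℕ, ((Denumerable.ofNat Code (Nat.pair (encode c) n).unpair.1).eval
      (encode ((Nat.pair (encode c) n).unpair.2, (List.range s).map X))).Dom) ↔ _
    rw [Nat.unpair_pair, Denumerable.ofNat_encode]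
    exact Iff.rfl
  refine ⟨r, fun X => ⟨?_, ?_, ?_, ?_⟩, fun e X Y hXY => ⟨?_, ?_⟩⟩
  · rw [hW, hX]
    refine turingReducible_of_computable (F := fun n σ => σ.getD (2 * n) false)
      (g := fun n => 2 * n + 1)
      (comp_getD Computable.snd (Primrec.nat_mul.to_comp.comp (Computable.const 2)
        Computable.fst)) (Computable.succ.comp (Primrec.nat_mul.to_comp.comp (Computable.const 2)
        Computable.id)) fun n => ?_
    rw [pre_getD _ (Nat.lt_succ_self _)]
    simp [WB]
  · rw [hW, hX]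
    intro hred
    have h1 : TuringReducible (chi (VB k T u X)) (chi (WB k T u X)) := by
      refine turingReducible_of_computable (F := fun n σ => σ.getD (2 * n + 1) false)
        (g := fun n => 2 * n + 1 + 1)
        (comp_getD Computable.snd (Computable.succ.comp (Primrec.nat_mul.to_comp.comp
          (Computable.const 2) Computable.fst))) (Computable.succ.comp (Computable.succ.comp
          (Primrec.nat_mul.to_comp.comp (Computable.const 2) Computable.id))) fun n => ?_
      rw [pre_getD _ (Nat.lt_succ_self _)]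
      have h2 : ¬ (2 * n + 1) % 2 = 0 := by omega
      have h3 : (2 * n + 1) / 2 = n := by omega
      simp [WB, h2, h3]
    obtain ⟨c, hc⟩ := turingReducible_iff.1 (h1.trans hred)
    exact not_code_V hu X c hc
  · rw [hW, hJ]
    exact hmj r X _ (hr X)
  · rw [hW, hJ]
    intro hred
    obtain ⟨c, hc⟩ := turingReducible_iff.1 ((hmj rc X _ (hrc X)).trans hred)
    exact not_code_C hu X c hc
  · rw [hW, hW]
    exact wb_le_of_rel hu (e := e) fun e' he' => (hu.hyp.equivalence e').symm (hXY e' he')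
  · rw [hW, hW]
    exact wb_le_of_rel hu hXY

end Pool.Agent.H51.TE
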