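import Mathlib
import Pool.Agent.H51.TE.Param
import Pool.Agent.H51.TE.Post

/-!
The finite equivalence relations obtained from the marker sets of a computable map.
-/

set_option autoImplicit false

namespace Pool.Agent.H51.TE

open Encodable Nat.Partrec Pool.Agent.H19 Filter

/-- The table of values. -/
def tab (F : List Bool → List Bool) (M L : ℕ) (σ : List Bool) : List ℕ :=
  (List.range (L + 1)).map fun l => bv ((F^[l] σ).take M)

/-- The table of values is determined by `σ`. -/
def okT (F : List Bool → List Bool) (M L : ℕ) (σ : List Bool) : Bool :=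
  (List.range (L + 1)).all fun l => decide (M ≤ (F^[l] σ).length)

theorem okT_iff {F : List Bool → List Bool} {M L : ℕ} {σ : List Bool} :
    okT F M L σ = true ↔ ∀ l ≤ L, M ≤ (F^[l] σ).length := by
  simp only [okT, List.all_eq_true, List.mem_range, decide_eq_true_eq, Nat.lt_succ_iff]

theorem tab_getD {F : List Bool → List Bool} {M L : ℕ} {σ : List Bool} {l : ℕ} (hl : l ≤ L) :
    (tab F M L σ).getD l 0 = bv ((F^[l] σ).take M) := by
  rw [List.getD_eq_getElem?_getD, tab, List.getElem?_map,
    List.getElem?_range (Nat.lt_succ_of_le hl)]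
  rfl

theorem okT_mono {F : List Bool → List Bool} {f : (ℕ → Bool) → ℕ → Bool} (hF : CFun F f)
    {M L : ℕ} {σ τ : List Bool} (hστ : σ <+: τ) (h : okT F M L σ = true) :
    okT F M L τ = true ∧ tab F M L τ = tab F M L σ := by
  rw [okT_iff] at h
  have h1 : ∀ l, F^[l] σ <+: F^[l] τ := fun l => (hF.iterate l).mono σ τ hστ
  refine ⟨okT_iff.2 fun l hl => (h l hl).trans (h1 l).length_le, ?_⟩
  refine List.map_congr_left fun l hl => ?_
  rw [List.mem_range] at hl
  obtain ⟨v, hv⟩ := h1 l
  rw [← hv, List.take_append_of_le_length (h l (Nat.lt_succ_iff.1 hl))]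

theorem tab_pre {F : List Bool → List Bool} {f : (ℕ → Bool) → ℕ → Bool} (hF : CFun F f)
    {M L : ℕ} {X : ℕ → Bool} {s : ℕ} (h : okT F M L (pre X s) = true) {l : ℕ} (hl : l ≤ L) :
    (tab F M L (pre X s)).getD l 0 = vv M (f^[l] X) := by
  rw [tab_getD hl, (hF.iterate l).take_eq X (okT_iff.1 h l hl), vv]

theorem okT_ev {F : List Bool → List Bool} {f : (ℕ → Bool) → ℕ → Bool} (hF : CFun F f)
    (M L : ℕ) (X : ℕ → Bool) : ∀ᶠ s in atTop, okT F M L (pre X s) = true := by
  have h1 : ∀ᶠ s in atTop, ∀ l ∈ Set.Iic L, M ≤ (F^[l] (pre X s)).length :=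
    (eventually_all_finite (Set.finite_Iic L)).2 fun l _ => (hF.iterate l).len_ev X M
  filter_upwards [h1] with s hs
  exact okT_iff.2 fun l hl => hs l hl

theorem headI_filter_range {p : ℕ → Bool} {n i : ℕ} (hi : i < n) (hp : p i = true)
    (hm : ∀ j < i, p j = false) : ((List.range n).filter p).headI = i := by
  obtain ⟨k, rfl⟩ := Nat.exists_eq_add_of_lt hi
  have e : i + k + 1 = i + (k + 1) := by omega
  rw [e, List.range_add, List.filter_append]
  have h1 : (List.range i).filter p = [] := by
    rw [List.filter_eq_nil_iff]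
    intro j hj
    rw [hm j (List.mem_range.1 hj)]
    simp
  rw [h1, List.nil_append, List.range_succ_eq_map, List.map_cons, add_zero,
    List.filter_cons_of_pos hp]
  rfl

/-! ### Correctness of the decisions -/

section

variable {f : (ℕ → Bool) → ℕ → Bool} {m G : ℕ → ℕ} (h : Par f vv m G) {e : ℕ} {t : List ℕ}
  {X : ℕ → Bool} (ht : ∀ l ≤ LL m G e, t.getD l 0 = vv (m (e + 1)) (f^[l] X))

include h

theorem isR_le {e : ℕ} {x : ℕ → Bool} {j : ℕ} (hj : IsR f vv m G e x j) :
    j ≤ BB m G e + 1 := by
  obtain ⟨l, hl, hR⟩ := exists_isR h e x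
  rw [isR_unique hj hR]; exact hl

include ht

theorem qT_eq {a l : ℕ} (ha : a ≤ e + 1) (hl : l ≤ LL m G e) :
    qT m e a t l = vv (m a) (f^[l] X) := by
  rw [qT, ht l hl, ← v_div_pow h (m_mono h ha)]

theorem uT_iff {a l : ℕ} (ha : a ≤ e + 1) (hl : l + G a ≤ LL m G e) :
    uT m G e a t l = true ↔ UU f vv m G a (f^[l] X) := by
  simp only [uT, List.all_eq_true, List.mem_range, Nat.lt_succ_iff, decide_eq_true_eq, UU]
  refine forall_congr' fun i => forall_congr' fun hi => ?_
  rw [qT_eq h ht ha (by omega), qT_eq h ht ha (by omega), Function.iterate_add_apply]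

theorem rT_iff {a l j : ℕ} (ha : a ≤ e + 1) (hl : j + l + G a ≤ LL m G e) :
    rT m G e a t l j = true ↔ IsR f vv m G a (f^[l] X) j := by
  simp only [rT, Bool.and_eq_true, decide_eq_true_eq, List.all_eq_true, List.mem_range, IsR,
    Bool.or_eq_true, Bool.not_eq_true']
  rw [uT_iff h ht ha (by omega), Function.iterate_add_apply]
  refine and_congr_right fun h0 => and_congr_right fun _ => ?_
  constructor
  · intro h1 i hi0 hij hU
    rcases h1 i hij with h2 | h2
    · omega
    · rw [← Bool.not_eq_true, uT_iff h ht ha (by omega), Function.iterate_add_apply] at h2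
      exact h2 hU
  · intro h1 i hij
    rcases Nat.eq_zero_or_pos i with h2 | h2
    · exact Or.inl h2
    · right
      rw [← Bool.not_eq_true, uT_iff h ht ha (by omega), Function.iterate_add_apply]
      exact h1 i h2 hij

theorem cT'_iff {l j d a : ℕ} (ha : a ≤ e) (hl : l ≤ PP m G e) (hj : j ≤ BB m G e + 1)
    (hd : d ≤ BB m G e + 1) :
    cT' m G e t l j d a = true ↔ (IsR f vv m G e (f^[l] X) j ∧
      IsR f vv m G e (f^[j] (f^[l] X)) d ∧ j < d ∧
      vv (m e) (f^[l] X) = vv (m e) (f^[d] (f^[l] X)) ∧ BB m G a + 1 < d ∧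
      d ≤ BB m G (a + 1) + 1 ∧ UU f vv m G a (f^[l] X) ∧
      IsR f vv m G a (f^[j] (f^[l] X)) (d - j)) := by
  have hG : G a ≤ G e := G_mono h ha
  simp only [cT', Bool.and_eq_true, decide_eq_true_eq]
  rw [rT_iff h ht (by omega) (by simp only [LL]; omega),
    rT_iff h ht (by omega) (by simp only [LL]; omega),
    qT_eq h ht (by omega) (by simp only [LL]; omega),
    qT_eq h ht (by omega) (by simp only [LL]; omega),
    uT_iff h ht (by omega) (by simp only [LL]; omega),
    rT_iff h ht (by omega) (by simp only [LL]; omega)]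
  simp only [Function.iterate_add_apply]

theorem cT_iff {l : ℕ} (hl : l ≤ PP m G e) :
    cT m G e t l = true ↔ Cut f vv m G e (f^[l] X) := by
  simp only [cT, Cut, Bool.or_eq_true, Bool.and_eq_true, Bool.not_eq_true', decide_eq_true_eq]
  have h0 := uT_iff h ht (a := e) (l := l) (by omega) (by simp only [LL]; omega)
  have h1 := uT_iff h ht (a := e + 1) (l := l) (by omega) (by simp only [LL]; omega)
  have h2 := uT_iff h ht (a := e) (l := 1 + l) (by omega) (by simp only [LL]; omega)
  rw [← Bool.not_eq_true, ← Bool.not_eq_true, h0, h1, h2,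
    qT_eq h ht (a := e + 1) (l := 1 + l) (by omega) (by simp only [LL]; omega),
    qT_eq h ht (a := e + 1) (l := l) (by omega) (by simp only [LL]; omega)]
  simp only [Function.iterate_add_apply, Function.iterate_one]
  refine or_congr Iff.rfl (or_congr Iff.rfl (and_congr_right fun _ => ?_))
  simp only [List.any_eq_true, List.mem_range]
  constructor
  · rintro ⟨j, hj, d, hd, a, ha, hc⟩
    exact ⟨j, d, a, (cT'_iff h ht (by omega) hl (by omega) (by omega)).1 hc⟩
  · rintro ⟨j, d, a, hc⟩
    have hj := isR_le h hc.1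
    have hd := isR_le h hc.2.1
    have ha : a ≤ e := by
      by_contra hae
      have h3 := BB_mono h (show e ≤ a by omega)
      have h4 := hc.2.2.2.2.1
      omega
    exact ⟨j, by omega, d, by omega, a, by omega, (cT'_iff h ht ha hl hj hd).2 hc⟩

theorem pT_eq : pT m G e t = pTime h e X := by
  refine headI_filter_range (Nat.lt_succ_of_le (pTime_le_PP h e X))
    ((cT_iff h ht (pTime_le_PP h e X)).2 (pTime_spec h e X)) fun j hj => ?_
  rw [← Bool.not_eq_true, cT_iff h ht (hj.le.trans (pTime_le_PP h e X))]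
  exact pTime_min h hj

end

/-! ### The maps -/

section

variable (F : List Bool → List Bool) (g : ℕ → List Bool → List Bool) (K : ℕ) (m G : ℕ → ℕ)

/-- The time to reach the cut set, from an initial segment. -/
def pS (e : ℕ) (σ : List Bool) : ℕ := pT m G e (tab F (m (e + 1)) (LL m G e) σ)

/-- The initial segment is long enough. -/
def okS (e : ℕ) (σ : List Bool) : Bool := okT F (m (e + 1)) (LL m G e) σ

/-- The words of branches of level `e`. -/
def wd (e j : ℕ) : List ℕ := (words K (PP m G e)).getD j []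

/-- The candidate for the `j`-th element of the class. -/
def yS (e j : ℕ) (σ : List Bool) : List Bool := gwS g (wd K m G e j) (F^[pS F m G e σ] σ)

/-- The string functions of the finite equivalence relations. -/
def TT (e j : ℕ) (σ : List Bool) : List Bool :=
  if okS F m G e σ && okS F m G e (yS F g K m G e j σ) then
    (if decide (pS F m G e (yS F g K m G e j σ) = (wd K m G e j).length) then
      yS F g K m G e j σ else σ)
  else []

/-- The number of maps of level `e`. -/
def card (e : ℕ) : ℕ := (words K (PP m G e)).length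

end

section

variable {F : List Bool → List Bool} {g : ℕ → List Bool → List Bool} {K : ℕ} {m G : ℕ → ℕ}
  {f : (ℕ → Bool) → ℕ → Bool} {γ : ℕ → (ℕ → Bool) → ℕ → Bool}

theorem pS_pre (hF : CFun F f) (h : Par f vv m G) {e : ℕ} {X : ℕ → Bool} {s : ℕ}
    (hok : okS F m G e (pre X s) = true) : pS F m G e (pre X s) = pTime h e X :=
  pT_eq h fun _ hl => tab_pre hF hok hl

theorem pS_mono (hF : CFun F f) {e : ℕ} {σ τ : List Bool} (hστ : σ <+: τ)
    (hok : okS F m G e σ = true) : okS F m G e τ = true ∧ pS F m G e τ = pS F m G e σ := by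
  obtain ⟨h1, h2⟩ := okT_mono hF hστ hok
  exact ⟨h1, by rw [pS, h2, pS]⟩

theorem TT_mono (hF : CFun F f) (hg : ∀ j, CFun (g j) (γ j)) (e j : ℕ) {σ τ : List Bool}
    (hστ : σ <+: τ) : TT F g K m G e j σ <+: TT F g K m G e j τ := by
  by_cases h1 : (okS F m G e σ && okS F m G e (yS F g K m G e j σ)) = true
  · rw [Bool.and_eq_true] at h1
    obtain ⟨h3, h4⟩ := pS_mono hF hστ h1.1
    have hy : yS F g K m G e j σ <+: yS F g K m G e j τ := by
      rw [yS, yS, h4]
      exact (gw_cfun hg _).mono _ _ ((hF.iterate _).mono _ _ hστ)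
    obtain ⟨h5, h6⟩ := pS_mono hF hy h1.2
    have e1 : TT F g K m G e j σ =
        if decide (pS F m G e (yS F g K m G e j σ) = (wd K m G e j).length) then
          yS F g K m G e j σ else σ := by
      rw [TT, h1.1, h1.2]; rfl
    have e2 : TT F g K m G e j τ =
        if decide (pS F m G e (yS F g K m G e j σ) = (wd K m G e j).length) then
          yS F g K m G e j τ else τ := by
      rw [TT, h3, h5, h6]; rfl
    rw [e1, e2]
    split_ifs
    · exact hy
    · exact hστ
  · rw [TT, if_neg h1]
    exact List.nil_prefix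

open Classical in
/-- The maps of Cantor space of the finite equivalence relations. -/
noncomputable def TR (γ : ℕ → (ℕ → Bool) → ℕ → Bool) (K : ℕ) {f : (ℕ → Bool) → ℕ → Bool}
    {m G : ℕ → ℕ} (h : Par f vv m G) (e j : ℕ) (X : ℕ → Bool) : ℕ → Bool :=
  if pTime h e (gwR γ (wd K m G e j) (sPt h e X)) = (wd K m G e j).length then
    gwR γ (wd K m G e j) (sPt h e X) else X

theorem TT_cfun (hF : CFun F f) (hg : ∀ j, CFun (g j) (γ j)) (h : Par f vv m G) (e j : ℕ) :
    CFun (TT F g K m G e j) (TR γ K h e j) := by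
  refine ⟨fun σ τ hστ => TT_mono hF hg e j hστ, fun X n => ?_⟩
  set τ := wd K m G e j with hτ
  have hY : CFun (fun σ => gwS g τ (F^[pTime h e X] σ)) (fun Z => gwR γ τ (f^[pTime h e X] Z)) :=
    CFun.comp (gw_cfun hg τ) (hF.iterate _)
  -- long initial segments decide everything
  have h1 : ∀ᶠ s in atTop, okS F m G e (pre X s) = true := okT_ev hF _ _ X
  have h2 : ∀ᶠ r in atTop, okS F m G e (pre (gwR γ τ (f^[pTime h e X] X)) r) = true :=
    okT_ev hF _ _ _
  obtain ⟨r0, hr0⟩ := eventually_atTop.1 h2
  have h3 := hY.len_ev X r0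
  have h4 := hY.ev X n
  have h5 : ∀ᶠ s in atTop, (pre X s)[n]? = some (X n) := by
    refine eventually_atTop.2 ⟨n + 1, fun s hs => pre_getElem? X (by omega)⟩
  obtain ⟨s, hs1, hs3, hs4, hs5⟩ := (h1.and (h3.and (h4.and h5))).exists
  refine ⟨s, ?_⟩
  have hp := pS_pre hF h hs1
  have hy : yS F g K m G e j (pre X s) = gwS g τ (F^[pTime h e X] (pre X s)) := by
    rw [yS, hp]
  have hy' : gwS g τ (F^[pTime h e X] (pre X s)) = pre (gwR γ τ (f^[pTime h e X] X))
      (gwS g τ (F^[pTime h e X] (pre X s))).length := hY.eq_pre X s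
  have hok2 : okS F m G e (yS F g K m G e j (pre X s)) = true := by
    rw [hy, hy']
    exact hr0 _ hs3
  have hp2 : pS F m G e (yS F g K m G e j (pre X s)) =
      pTime h e (gwR γ τ (f^[pTime h e X] X)) := by
    rw [hy, hy'] at hok2 ⊢
    exact pS_pre hF h hok2
  have e1 : TT F g K m G e j (pre X s) =
      if decide (pTime h e (gwR γ τ (f^[pTime h e X] X)) = τ.length) then
        gwS g τ (F^[pTime h e X] (pre X s)) else pre X s := by
    rw [TT, hs1, hok2, hp2, hy]; rfl
  by_cases hc : pTime h e (gwR γ τ (f^[pTime h e X] X)) = τ.length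
  · have e2 : TR γ K h e j X = gwR γ τ (f^[pTime h e X] X) := if_pos hc
    rw [e1, e2, if_pos (decide_eq_true hc)]
    exact hs4
  · have e2 : TR γ K h e j X = X := if_neg hc
    rw [e1, e2, if_neg (by simpa using hc)]
    exact hs5

theorem levelRel_iff (hF : CFun F f) (hg : ∀ j, CFun (g j) (γ j)) (h : Par f vv m G)
    (hγ : ∀ j Y, f (γ j Y) = Y) (hcov : ∀ X, ∃ j < K, γ j (f X) = X) {e : ℕ}
    {X Y : ℕ → Bool} : LevelRel (card K m G) (TT F g K m G) e X Y ↔ sPt h e X = sPt h e Y := by
  constructor
  · rintro ⟨j, _, hM⟩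
    have hY := (TT_cfun (K := K) hF hg h e j).unique hM
    rw [TR] at hY
    split_ifs at hY with hc
    · rw [← hY] at hc
      have h1 : sPt h e Y = f^[(wd K m G e j).length] Y := by rw [sPt, hc]
      rw [h1, hY, iterate_gwR hγ]
    · rw [hY]
  · intro hs
    obtain ⟨τ, h1, h2, h3⟩ := exists_gwR hcov (pTime h e Y) Y
    have hmem : τ ∈ words K (PP m G e) := mem_words.2 ⟨by rw [h1]; exact pTime_le_PP h e Y, h2⟩
    obtain ⟨j, hj, hjτ⟩ := List.getElem_of_mem hmem
    have hwd : wd K m G e j = τ := by
      rw [wd, List.getD_eq_getElem?_getD, List.getElem?_eq_getElem hj, hjτ]; rfl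
    refine ⟨j, hj, ?_⟩
    have hM := (TT_cfun (K := K) hF hg h e j).maps X
    have hTR : TR γ K h e j X = Y := by
      have h4 : gwR γ τ (sPt h e X) = Y := by rw [hs, sPt, h3]
      rw [TR, hwd, h4, if_pos h1.symm]
    rwa [hTR] at hM

theorem comp_tab (hFc : Computable F) {α : Type*} [Primcodable α] {M L : α → ℕ}
    {σ : α → List Bool} (hM : Computable M) (hL : Computable L) (hσ : Computable σ) :
    Computable fun x => tab F (M x) (L x) (σ x) := by
  refine comp_list_map (f := fun x => List.range (L x + 1))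
    (g := fun x l => bv ((F^[l] (σ x)).take (M x))) (comp_range (Computable.succ.comp hL)) ?_
  exact comp_bv.comp (comp_take (hM.comp Computable.fst)
    (comp_iter (α := α × ℕ) hFc Computable.snd (hσ.comp Computable.fst)))

theorem comp_okT (hFc : Computable F) {α : Type*} [Primcodable α] {M L : α → ℕ}
    {σ : α → List Bool} (hM : Computable M) (hL : Computable L) (hσ : Computable σ) :
    Computable fun x => okT F (M x) (L x) (σ x) := by
  refine comp_list_all (f := fun x => List.range (L x + 1))
    (g := fun x l => decide (M x ≤ (F^[l] (σ x)).length))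
    (comp_range (Computable.succ.comp hL)) ?_
  have h1 := comp_iter (α := α × ℕ) hFc Computable.snd (hσ.comp Computable.fst)
  exact comp_decLe (hM.comp Computable.fst) (Computable.list_length.comp h1)

theorem comp_pS (hFc : Computable F) (hm : Computable m) (hG : Computable G) {α : Type*}
    [Primcodable α] {e : α → ℕ} {σ : α → List Bool} (he : Computable e) (hσ : Computable σ) :
    Computable fun x => pS F m G (e x) (σ x) :=
  comp_pT hm hG he (comp_tab hFc (hm.comp (Computable.succ.comp he)) (comp_LL hm hG he) hσ)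

theorem comp_okS (hFc : Computable F) (hm : Computable m) (hG : Computable G) {α : Type*}
    [Primcodable α] {e : α → ℕ} {σ : α → List Bool} (he : Computable e) (hσ : Computable σ) :
    Computable fun x => okS F m G (e x) (σ x) :=
  comp_okT hFc (hm.comp (Computable.succ.comp he)) (comp_LL hm hG he) hσ

theorem comp_wd (hm : Computable m) (hG : Computable G) {α : Type*}
    [Primcodable α] {e j : α → ℕ} (he : Computable e) (hj : Computable j) :
    Computable fun x => wd K m G (e x) (j x) :=
  (Primrec.list_getD ([] : List ℕ)).to_comp.comp ((comp_words K).comp (comp_PP hm hG he)) hj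

theorem comp_gwS (hg : Computable (fun p : ℕ × List Bool => g p.1 p.2)) {α : Type*}
    [Primcodable α] {τ : α → List ℕ} {σ : α → List Bool} (hτ : Computable τ)
    (hσ : Computable σ) : Computable fun x => gwS g (τ x) (σ x) := by
  have h1 : Computable₂ (fun (_ : α) (p : List Bool × ℕ) => g p.2 p.1) :=
    hg.comp ((Computable.snd.comp Computable.snd).pair (Computable.fst.comp Computable.snd))
  exact comp_list_foldl (h := fun (_ : α) (p : List Bool × ℕ) => g p.2 p.1) hτ hσ h1

theorem comp_TT (hFc : Computable F) (hg : Computable (fun p : ℕ × List Bool => g p.1 p.2))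
    (hm : Computable m) (hG : Computable G) :
    Computable (fun p : ℕ × ℕ × List Bool => TT F g K m G p.1 p.2.1 p.2.2) := by
  have he : Computable (fun p : ℕ × ℕ × List Bool => p.1) := Computable.fst
  have hj : Computable (fun p : ℕ × ℕ × List Bool => p.2.1) := Computable.fst.comp Computable.snd
  have hσ : Computable (fun p : ℕ × ℕ × List Bool => p.2.2) := Computable.snd.comp Computable.snd
  have hw : Computable (fun p : ℕ × ℕ × List Bool => wd K m G p.1 p.2.1) := comp_wd hm hG he hj
  have hy : Computable (fun p : ℕ × ℕ × List Bool => yS F g K m G p.1 p.2.1 p.2.2) :=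
    comp_gwS hg hw (comp_iter hFc (comp_pS hFc hm hG he hσ) hσ)
  exact comp_ite (c := fun p : ℕ × ℕ × List Bool =>
      okS F m G p.1 p.2.2 && okS F m G p.1 (yS F g K m G p.1 p.2.1 p.2.2))
    (comp_and (comp_okS hFc hm hG he hσ) (comp_okS hFc hm hG he hy))
    (comp_ite (c := fun p : ℕ × ℕ × List Bool => decide
      (pS F m G p.1 (yS F g K m G p.1 p.2.1 p.2.2) = (wd K m G p.1 p.2.1).length))
      (comp_decEq (comp_pS hFc hm hG he hy) (Computable.list_length.comp hw)) hy hσ)
    (Computable.const [])

/-- The finite equivalence relations are uniformly computable. -/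
theorem compFin (hF : CFun F f) (hFc : Computable F) (hg : ∀ j, CFun (g j) (γ j))
    (hgc : Computable (fun p : ℕ × List Bool => g p.1 p.2)) (hm : Computable m)
    (hG : Computable G) (h : Par f vv m G) (hγ : ∀ j Y, f (γ j Y) = Y)
    (hcov : ∀ X, ∃ j < K, γ j (f X) = X) : CompFin (card K m G) (TT F g K m G) where
  computable_card :=
    Computable.list_length.comp ((comp_words K).comp (comp_PP hm hG Computable.id))
  computable_map := comp_TT hFc hgc hm hG
  monotone := fun e j _ _ hστ => TT_mono hF hg e j hστ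
  total := fun e j _ X => ⟨_, (TT_cfun hF hg h e j).maps X⟩
  equivalence := fun e => by
    refine ⟨fun X => (levelRel_iff hF hg h hγ hcov).2 rfl, fun hXY => ?_, fun hXY hYZ => ?_⟩
    · exact (levelRel_iff hF hg h hγ hcov).2 ((levelRel_iff hF hg h hγ hcov).1 hXY).symm
    · exact (levelRel_iff hF hg h hγ hcov).2 (((levelRel_iff hF hg h hγ hcov).1 hXY).trans
        ((levelRel_iff hF hg h hγ hcov).1 hYZ))

end

end Pool.Agent.H51.TE
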